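import Pool.Agent.H516R3.Sat.Est

set_option autoImplicit false
set_option linter.all false

open scoped InnerProductSpace
open Filter Topology

noncomputable section

namespace Pool.Agent.H516R3.Sat

variable (H : Type*) [NormedAddCommGroup H] [InnerProductSpace ℂ H] [CompleteSpace H]

/-- The ideal of compact operators. -/
def compactIdeal : Ideal (H →L[ℂ] H) where
  carrier := {T | IsCompactOperator T}
  add_mem' := fun {S T} hS hT => by
    have : IsCompactOperator (⇑S + ⇑T) := IsCompactOperator.add hS hT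
    exact this
  zero_mem' := isCompactOperator_zero
  smul_mem' := fun c T hT => by
    have : IsCompactOperator (⇑c ∘ ⇑T) := IsCompactOperator.clm_comp hT c
    exact this

instance : (compactIdeal H).IsTwoSided where
  mul_mem_of_left := fun {S} T hS => by
    have : IsCompactOperator (⇑S ∘ ⇑T) := IsCompactOperator.comp_clm hS T
    exact this

/-- The Calkin algebra `B(H)/K(H)`; its norm is the quotient norm. -/
abbrev Calkin : Type _ := (H →L[ℂ] H) ⧸ compactIdeal H

instance : IsClosed ((compactIdeal H : Ideal (H →L[ℂ] H)) : Set (H →L[ℂ] H)) :=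
  isClosed_setOfPred_isCompactOperator

variable {H}

lemma FinRank.star {X : H →L[ℂ] H} (hX : FinRank X) : FinRank (star X) := by
  obtain ⟨n, a, b, _, h⟩ := hX.exists_sum
  refine finRank_of_sum Finset.univ b a _ fun x => ?_
  refine ext_inner_left ℂ fun y => ?_
  rw [ContinuousLinearMap.star_eq_adjoint, ContinuousLinearMap.adjoint_inner_right, h, sum_inner,
    inner_sum]
  refine Finset.sum_congr rfl fun i _ => ?_
  rw [inner_smul_left, inner_smul_right, inner_conj_symm, mul_comm]

lemma isCompactOperator_star {C : H →L[ℂ] H} (hC : IsCompactOperator C) :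
    IsCompactOperator (star C : H →L[ℂ] H) := by
  have hcl : IsClosed {T : H →L[ℂ] H | IsCompactOperator T} := isClosed_setOfPred_isCompactOperator
  have : (star C : H →L[ℂ] H) ∈ closure {T : H →L[ℂ] H | IsCompactOperator T} := by
    rw [Metric.mem_closure_iff]
    intro ε hε
    obtain ⟨F, hF, h⟩ := exists_finRank_close hC (ε := ε / 2) (by positivity)
    refine ⟨Star.star F, hF.star.isCompactOperator, ?_⟩
    rw [dist_eq_norm, ← star_sub, norm_star]
    linarith
  rwa [hcl.closure_eq] at this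

lemma Mem.star {X : H →L[ℂ] H} (hX : Mem X) : Mem (star X) := by
  have hterm : ∀ Y : H →L[ℂ] H, term (Star.star Y) = term Y := by
    intro Y; funext n; unfold term; rw [kf_star]
  refine ⟨?_, fun ε hε => ?_⟩
  · unfold Fin'; rw [hterm]; exact hX.1
  · obtain ⟨F, hF, h⟩ := hX.2 ε hε
    refine ⟨Star.star F, hF.star, ?_⟩
    rw [← star_sub]
    unfold mnrm at h ⊢
    rwa [hterm]

lemma mnrm_star (X : H →L[ℂ] H) : mnrm (star X) = mnrm X := by
  have hterm : term (Star.star X) = term X := by
    funext n; unfold term; rw [kf_star]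
  unfold mnrm; rw [hterm]

/-- the quotient map -/
def toCalkin : (H →L[ℂ] H) →+* Calkin H := Ideal.Quotient.mk (compactIdeal H)

lemma toCalkin_eq_iff {S T : H →L[ℂ] H} :
    toCalkin S = toCalkin T ↔ IsCompactOperator (S - T : H →L[ℂ] H) :=
  Ideal.Quotient.mk_eq_mk_iff_sub_mem S T

lemma toCalkin_eq_zero_iff {T : H →L[ℂ] H} : toCalkin T = 0 ↔ IsCompactOperator T := by
  rw [← map_zero toCalkin, toCalkin_eq_iff, sub_zero]

lemma toCalkin_surjective : Function.Surjective (toCalkin (H := H)) := Ideal.Quotient.mk_surjective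

instance : Star (Calkin H) where
  star := fun x => Quotient.liftOn' x (fun T => toCalkin (star T)) (by
    intro S T h
    have h1 : toCalkin S = toCalkin T := Quotient.sound' h
    rw [toCalkin_eq_iff] at h1 ⊢
    rw [← star_sub]
    exact isCompactOperator_star h1)

lemma toCalkin_star (T : H →L[ℂ] H) : toCalkin (star T) = star (toCalkin T) := rfl

instance : StarRing (Calkin H) where
  star_involutive := fun x => by
    obtain ⟨T, rfl⟩ := toCalkin_surjective x
    rw [← toCalkin_star, ← toCalkin_star, star_star]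
  star_mul := fun x y => by
    obtain ⟨S, rfl⟩ := toCalkin_surjective x
    obtain ⟨T, rfl⟩ := toCalkin_surjective y
    rw [← map_mul, ← toCalkin_star, star_mul, map_mul, toCalkin_star, toCalkin_star]
  star_add := fun x y => by
    obtain ⟨S, rfl⟩ := toCalkin_surjective x
    obtain ⟨T, rfl⟩ := toCalkin_surjective y
    rw [← map_add, ← toCalkin_star, star_add, map_add, toCalkin_star, toCalkin_star]

lemma toCalkin_smul (c : ℂ) (T : H →L[ℂ] H) : toCalkin (c • T) = c • toCalkin T := rfl

instance : StarModule ℂ (Calkin H) where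
  star_smul := fun c x => by
    obtain ⟨T, rfl⟩ := toCalkin_surjective x
    rw [← toCalkin_smul, ← toCalkin_star, star_smul, toCalkin_smul, toCalkin_star]

lemma norm_toCalkin_le (T : H →L[ℂ] H) : ‖toCalkin T‖ ≤ ‖T‖ :=
  Submodule.Quotient.norm_mk_le (compactIdeal H) T

/-- a lower bound of the Calkin norm through a weakly null sequence of unit vectors. -/
lemma le_norm_toCalkin {T : H →L[ℂ] H} {x : ℕ → H} (hx : ∀ n, ‖x n‖ = 1)
    (hw : ∀ a : H, Tendsto (fun n => ⟪a, x n⟫_ℂ) atTop (𝓝 0)) (hT : ∀ᶠ n in atTop, 1 ≤ ‖T (x n)‖) :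
    1 ≤ ‖toCalkin T‖ := by
  by_contra hcon
  push Not at hcon
  obtain ⟨S, hS, hS'⟩ : ∃ S : H →L[ℂ] H, toCalkin S = toCalkin T ∧ ‖S‖ < 1 := by
    have h1 := Submodule.Quotient.norm_mk_lt (S := compactIdeal H) (toCalkin T)
      (ε := 1 - ‖toCalkin T‖) (by linarith)
    obtain ⟨m, hm, hlt⟩ := h1
    exact ⟨m, hm, by linarith⟩
  rw [toCalkin_eq_iff] at hS
  -- `(S - T) x n → 0`
  have h0 : Tendsto (fun n => ‖(S - T) (x n)‖) atTop (𝓝 0) := by
    rw [Metric.tendsto_atTop]
    intro ε hε
    obtain ⟨F, hF, hclose⟩ := exists_finRank_close hS (ε := ε / 2) (by positivity)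
    obtain ⟨m, a, b, hb, hab⟩ := hF.exists_sum
    have h1 : Tendsto (fun n => ‖F (x n)‖) atTop (𝓝 0) := by
      have : Tendsto (fun n => F (x n)) atTop (𝓝 (∑ i, (0 : ℂ) • b i)) := by
        simp only [hab]
        refine tendsto_finset_sum _ fun i _ => ?_
        exact (hw (a i)).smul_const (b i)
      have h2 := this.norm
      simpa using h2
    rw [Metric.tendsto_atTop] at h1
    obtain ⟨N, hN⟩ := h1 (ε / 2) (by positivity)
    refine ⟨N, fun n hn => ?_⟩
    have h2 := hN n hn
    rw [Real.dist_eq, sub_zero, abs_of_nonneg (norm_nonneg _)] at h2 ⊢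
    have h3 : ‖(S - T - F) (x n)‖ ≤ ε / 2 := by
      refine ((S - T - F).le_opNorm (x n)).trans ?_
      rw [hx, mul_one]; exact hclose
    have h4 : (S - T) (x n) = (S - T - F) (x n) + F (x n) := by simp
    rw [h4]
    refine (norm_add_le _ _).trans_lt ?_
    linarith
  have h5 := (h0.eventually (gt_mem_nhds (show (0 : ℝ) < 1 - ‖S‖ by linarith))).and hT
  obtain ⟨n, hn1, hn2⟩ := h5.exists
  have h6 : ‖T (x n)‖ ≤ ‖S (x n)‖ + ‖(S - T) (x n)‖ := by
    have : T (x n) = S (x n) - (S - T) (x n) := by simp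
    rw [this]
    exact norm_sub_le _ _
  have h7 : ‖S (x n)‖ ≤ ‖S‖ := by
    have := S.le_opNorm (x n)
    rwa [hx, mul_one] at this
  linarith

/-- `E(τ; I)`: the operators commuting with the tuple modulo the ideal. -/
def commMod (I : NormedIdeal H) {n : ℕ} (τ : Fin n → (H →L[ℂ] H)) : Set (H →L[ℂ] H) :=
  {X | ∀ j, X * τ j - τ j * X ∈ I.carrier}

/-- The modulus of quasicentral approximation `k_I(τ)`. -/
def kMod (I : NormedIdeal H) {n : ℕ} (τ : Fin n → (H →L[ℂ] H)) : ENNReal :=
  sInf {C | ∃ A : ℕ → (H →L[ℂ] H), (∀ m, FinRank (A m)) ∧ (∀ m, 0 ≤ A m ∧ A m ≤ 1) ∧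
    Monotone A ∧ (∀ x, Tendsto (fun m => A m x) atTop (𝓝 x)) ∧
    Tendsto (fun m => ENNReal.ofReal (⨆ j, I.nrm (A m * τ j - τ j * A m))) atTop (𝓝 C)}

end Pool.Agent.H516R3.Sat
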