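import Pool.Agent.H516R3.Sat.Ideal

set_option autoImplicit false
set_option linter.all false

open scoped InnerProductSpace
open Filter Topology

noncomputable section

namespace Pool.Agent.H516R3.Sat

variable {H : Type*} [NormedAddCommGroup H] [InnerProductSpace ℂ H] [CompleteSpace H]

lemma mapply (A B : H →L[ℂ] H) (x : H) : (A * B) x = A (B x) := rfl

/-- approximation of compact operators by finite rank ones -/
lemma exists_finRank_close {C : H →L[ℂ] H} (hC : IsCompactOperator C) {ε : ℝ} (hε : 0 < ε) :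
    ∃ F : H →L[ℂ] H, FinRank F ∧ ‖C - F‖ ≤ ε := by
  have hK : IsCompact (closure (C '' Metric.closedBall 0 1)) :=
    hC.isCompact_closure_image_closedBall 1
  obtain ⟨t, htf, ht⟩ := Metric.totallyBounded_iff.mp hK.totallyBounded ε hε
  haveI : FiniteDimensional ℂ (Submodule.span ℂ t) := FiniteDimensional.span_of_finite ℂ htf
  let V := Submodule.span ℂ t
  let P : H →L[ℂ] H := V.starProjection
  refine ⟨P * C, ?_, ?_⟩
  · have h : LinearMap.range ((P * C : H →L[ℂ] H) : H →ₗ[ℂ] H) ≤ V := by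
      rintro _ ⟨x, rfl⟩
      change V.starProjection (C x) ∈ V
      exact Submodule.starProjection_apply_mem V (C x)
    exact Submodule.finiteDimensional_of_le h
  · refine ContinuousLinearMap.opNorm_le_of_unit_norm (by positivity) ?_
    intro x hx
    have hx' : C x ∈ closure (C '' Metric.closedBall 0 1) :=
      subset_closure ⟨x, by simp [hx], rfl⟩
    obtain ⟨y, hy, hxy⟩ := Set.mem_iUnion₂.mp (ht hx')
    have hyV : y ∈ V := Submodule.subset_span hy
    have h1 : (C - P * C) x = (C x - y) - P (C x - y) := by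
      have : P y = y := Submodule.starProjection_eq_self_iff.mpr hyV
      rw [map_sub, this]
      simp
    rw [h1]
    have h2 : (C x - y) - P (C x - y) = Vᗮ.starProjection (C x - y) := by
      rw [Submodule.starProjection_orthogonal']
      simp [P]
    rw [h2]
    have h3 : ‖Vᗮ.starProjection (C x - y)‖ ≤ ‖C x - y‖ :=
      Submodule.norm_starProjection_apply_le Vᗮ (C x - y)
    have h4 : ‖C x - y‖ < ε := by simpa [dist_eq_norm] using hxy
    linarith

lemma term_tendsto_zero {C : H →L[ℂ] H} (hC : IsCompactOperator C) :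
    Tendsto (term C) atTop (𝓝 0) := by
  rw [Metric.tendsto_atTop]
  intro ε hε
  obtain ⟨F, hF, hCF⟩ := exists_finRank_close hC (ε := ε / 4) (by positivity)
  have h1 : Tendsto (term F) atTop (𝓝 0) := hF.fin.tendsto_atTop_zero
  rw [Metric.tendsto_atTop] at h1
  obtain ⟨N, hN⟩ := h1 (ε / 2) (by positivity)
  refine ⟨N, fun n hn => ?_⟩
  have h2 := hN n hn
  rw [Real.dist_eq, sub_zero, abs_of_nonneg (term_nonneg _ _)] at h2 ⊢
  have h3 : term C n ≤ term (C - F) n + term F n := by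
    have := term_add (C - F) F n
    simpa using this
  have h4 : term (C - F) n ≤ ε / 4 := by
    unfold term
    have h5 := kf_le_mul (2 ^ n) (C - F)
    calc (2 : ℝ)⁻¹ ^ n * kf (2 ^ n) (C - F) ≤ (2 : ℝ)⁻¹ ^ n * (((2 ^ n : ℕ) : ℝ) * ‖C - F‖) := by
          gcongr
      _ = ‖C - F‖ := by
          push_cast
          rw [← mul_assoc, ← mul_pow]
          norm_num
      _ ≤ ε / 4 := hCF
  linarith

/-- words of length `n` -/
def Wd : ℕ → Type
  | 0 => Unit
  | n + 1 => Bool × Wd n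

instance : ∀ n, Fintype (Wd n)
  | 0 => (inferInstance : Fintype Unit)
  | n + 1 => letI := instFintypeWd n; (inferInstance : Fintype (Bool × Wd n))

lemma card_Wd : ∀ n, Fintype.card (Wd n) = 2 ^ n
  | 0 => rfl
  | n + 1 => by
      have h : Fintype.card (Wd (n + 1)) = Fintype.card (Bool × Wd n) := rfl
      rw [h, Fintype.card_prod, card_Wd n, Fintype.card_bool, pow_succ]; ring

/-- the family `S_w ξ`, `w` a word of length `n`. -/
def fam (S : Bool → (H →L[ℂ] H)) (ξ : H) : (n : ℕ) → Wd n → H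
  | 0, _ => ξ
  | n + 1, w => S w.1 (fam S ξ n w.2)

/-- isometries with orthogonal ranges -/
def OrthIso (S : Bool → (H →L[ℂ] H)) : Prop :=
  ∀ i j ξ η, ⟪S i ξ, S j η⟫_ℂ = if i = j then ⟪ξ, η⟫_ℂ else 0

lemma OrthIso.norm_eq {S : Bool → (H →L[ℂ] H)} (hS : OrthIso S) (i : Bool) (ξ : H) :
    ‖S i ξ‖ = ‖ξ‖ := by
  have := hS i i ξ ξ
  simp only [if_true] at this
  rw [inner_self_eq_norm_sq_to_K, inner_self_eq_norm_sq_to_K] at this
  have h2 : ‖S i ξ‖ ^ 2 = ‖ξ‖ ^ 2 := by exact_mod_cast this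
  exact (sq_eq_sq₀ (norm_nonneg _) (norm_nonneg _)).mp h2

lemma OrthIso.norm_le {S : Bool → (H →L[ℂ] H)} (hS : OrthIso S) (i : Bool) : ‖S i‖ ≤ 1 :=
  ContinuousLinearMap.opNorm_le_bound _ zero_le_one fun x => by rw [hS.norm_eq, one_mul]

lemma con_fam {S : Bool → (H →L[ℂ] H)} (hS : OrthIso S) {ξ : H} (hξ : ‖ξ‖ ≤ 1) :
    ∀ n, Con (fam S ξ n)
  | 0 => by
      intro c
      have h1 : ∑ i : Wd 0, c i • fam S ξ 0 i = c () • ξ := by
        change ∑ i : Unit, c i • ξ = _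
        simp
      have h2 : ∑ i : Wd 0, ‖c i‖ ^ 2 = ‖c ()‖ ^ 2 := by
        change ∑ i : Unit, ‖c i‖ ^ 2 = _
        simp
      rw [h1, h2, norm_smul]
      have : ‖c ()‖ * ‖ξ‖ ≤ ‖c ()‖ := mul_le_of_le_one_right (norm_nonneg _) hξ
      gcongr
  | n + 1 => by
      intro c
      have h1 : ∑ i : Wd (n + 1), c i • fam S ξ (n + 1) i
          = ∑ b : Bool, S b (∑ w : Wd n, c (b, w) • fam S ξ n w) := by
        change ∑ i : Bool × Wd n, c i • S i.1 (fam S ξ n i.2) = _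
        rw [Fintype.sum_prod_type]
        refine Finset.sum_congr rfl fun b _ => ?_
        rw [map_sum]
        simp
      have h2 : ∑ i : Wd (n + 1), ‖c i‖ ^ 2 = ∑ b : Bool, ∑ w : Wd n, ‖c (b, w)‖ ^ 2 := by
        change ∑ i : Bool × Wd n, ‖c i‖ ^ 2 = _
        rw [Fintype.sum_prod_type]
      rw [h1, h2]
      have h3 : ∀ f : Bool → H, ‖∑ b, S b (f b)‖ ^ 2 = ∑ b, ‖f b‖ ^ 2 := by
        intro f
        have h4 : (⟪∑ b, S b (f b), ∑ b, S b (f b)⟫_ℂ) = ∑ b, ⟪f b, f b⟫_ℂ := by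
          rw [sum_inner]
          refine Finset.sum_congr rfl fun b _ => ?_
          rw [inner_sum, Finset.sum_eq_single b]
          · rw [hS]; simp
          · intro b' _ hb'
            rw [hS, if_neg hb'.symm]
          · simp
        rw [inner_self_eq_norm_sq_to_K] at h4
        simp only [inner_self_eq_norm_sq_to_K] at h4
        exact_mod_cast h4
      rw [h3]
      exact Finset.sum_le_sum fun b _ => con_fam hS hξ n _

/-- the averages `⟨η, Ψⁿ(X) ξ⟩`. -/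
def avg (S : Bool → (H →L[ℂ] H)) (X : H →L[ℂ] H) (ξ η : H) (n : ℕ) : ℂ :=
  ((2 : ℂ)⁻¹) ^ n * ∑ w : Wd n, ⟪fam S η n w, X (fam S ξ n w)⟫_ℂ

lemma norm_avg_le {S : Bool → (H →L[ℂ] H)} (hS : OrthIso S) (X : H →L[ℂ] H) {ξ η : H}
    (hξ : ‖ξ‖ ≤ 1) (hη : ‖η‖ ≤ 1) (n : ℕ) : ‖avg S X ξ η n‖ ≤ term X n := by
  unfold avg term
  rw [norm_mul, norm_pow, norm_inv]
  have h := le_kf' (card_Wd n) X (con_fam hS hξ n) (con_fam hS hη n)
  have h2 : ‖(2 : ℂ)‖ = 2 := by simp
  rw [h2]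
  gcongr

lemma avg_step {S : Bool → (H →L[ℂ] H)} (hS : OrthIso S) (X : H →L[ℂ] H) {ξ η : H}
    (hξ : ‖ξ‖ ≤ 1) (hη : ‖η‖ ≤ 1) (n : ℕ) :
    ‖avg S X ξ η (n + 1) - avg S X ξ η n‖ ≤
      (2 : ℝ)⁻¹ * ∑ i : Bool, term (X * S i - S i * X) n := by
  have h1 : avg S X ξ η (n + 1) = (2 : ℂ)⁻¹ ^ (n + 1) *
      ∑ b : Bool, ∑ w : Wd n, ⟪S b (fam S η n w), X (S b (fam S ξ n w))⟫_ℂ := by
    unfold avg
    congr 1
    change ∑ i : Bool × Wd n, ⟪S i.1 (fam S η n i.2), X (S i.1 (fam S ξ n i.2))⟫_ℂ = _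
    rw [Fintype.sum_prod_type]
  have h2 : avg S X ξ η n = (2 : ℂ)⁻¹ ^ (n + 1) *
      ∑ b : Bool, ∑ w : Wd n, ⟪S b (fam S η n w), S b (X (fam S ξ n w))⟫_ℂ := by
    unfold avg
    have : ∀ b : Bool, ∑ w : Wd n, ⟪S b (fam S η n w), S b (X (fam S ξ n w))⟫_ℂ
        = ∑ w : Wd n, ⟪fam S η n w, X (fam S ξ n w)⟫_ℂ := by
      intro b
      refine Finset.sum_congr rfl fun w _ => ?_
      rw [hS]; simp
    simp only [this, Finset.sum_const, Finset.card_univ, Fintype.card_bool]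
    rw [pow_succ]
    simp only [nsmul_eq_mul]
    push_cast
    ring
  have h3 : avg S X ξ η (n + 1) - avg S X ξ η n = (2 : ℂ)⁻¹ ^ (n + 1) *
      ∑ b : Bool, ∑ w : Wd n, ⟪S b (fam S η n w), (X * S b - S b * X) (fam S ξ n w)⟫_ℂ := by
    rw [h1, h2, ← mul_sub, ← Finset.sum_sub_distrib]
    congr 1
    refine Finset.sum_congr rfl fun b _ => ?_
    rw [← Finset.sum_sub_distrib]
    refine Finset.sum_congr rfl fun w _ => ?_
    rw [← inner_sub_right]
    rfl
  rw [h3, norm_mul, norm_pow, norm_inv]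
  have h4 : ‖(2 : ℂ)‖ = 2 := by simp
  rw [h4, pow_succ]
  have h5 : ‖∑ b : Bool, ∑ w : Wd n, ⟪S b (fam S η n w), (X * S b - S b * X) (fam S ξ n w)⟫_ℂ‖
      ≤ ∑ b : Bool, kf (2 ^ n) (X * S b - S b * X) := by
    refine (norm_sum_le _ _).trans (Finset.sum_le_sum fun b _ => ?_)
    exact le_kf' (card_Wd n) _ (con_fam hS hξ n) ((con_fam hS hη n).map (hS.norm_le b))
  calc (2 : ℝ)⁻¹ ^ n * (2 : ℝ)⁻¹ * ‖∑ b : Bool, ∑ w : Wd n,
        ⟪S b (fam S η n w), (X * S b - S b * X) (fam S ξ n w)⟫_ℂ‖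
      ≤ (2 : ℝ)⁻¹ ^ n * (2 : ℝ)⁻¹ * ∑ b : Bool, kf (2 ^ n) (X * S b - S b * X) := by gcongr
    _ = _ := by
      unfold term
      rw [← Finset.mul_sum]; ring

lemma inner_le_avg {S : Bool → (H →L[ℂ] H)} (hS : OrthIso S) (X : H →L[ℂ] H) {ξ η : H}
    (hξ : ‖ξ‖ ≤ 1) (hη : ‖η‖ ≤ 1) (hD : ∀ i, Fin' (X * S i - S i * X)) (n : ℕ) :
    ‖⟪η, X ξ⟫_ℂ‖ ≤ ‖avg S X ξ η n‖ + ∑ i, mnrm (X * S i - S i * X) := by
  have h0 : avg S X ξ η 0 = ⟪η, X ξ⟫_ℂ := by
    unfold avg
    change (2 : ℂ)⁻¹ ^ 0 * ∑ w : Unit, ⟪η, X ξ⟫_ℂ = _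
    simp
  have h1 : ∀ n, ‖avg S X ξ η 0‖ ≤ ‖avg S X ξ η n‖ +
      (2 : ℝ)⁻¹ * ∑ i : Bool, ∑ m ∈ Finset.range n, term (X * S i - S i * X) m := by
    intro n
    induction n with
    | zero => simp
    | succ n ih =>
      have h2 := avg_step hS X hξ hη n
      have h3 : ‖avg S X ξ η n‖ ≤ ‖avg S X ξ η (n + 1)‖ + ‖avg S X ξ η (n + 1) - avg S X ξ η n‖ := by
        have := norm_sub_le (avg S X ξ η (n + 1)) (avg S X ξ η (n + 1) - avg S X ξ η n)
        simpa using this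
      simp only [Finset.sum_range_succ, Finset.sum_add_distrib, mul_add]
      linarith
  rw [← h0]
  refine (h1 n).trans ?_
  gcongr
  rw [Finset.mul_sum]
  refine Finset.sum_le_sum fun i _ => ?_
  unfold mnrm
  gcongr
  exact Summable.sum_le_tsum _ (fun m _ => term_nonneg _ _) (hD i)

/-- Projections commuting with the isometries, increasing to `1`. -/
structure Cut (S : Bool → (H →L[ℂ] H)) (P : ℕ → (H →L[ℂ] H)) : Prop where
  star_eq : ∀ m, star (P m) = P m
  idem : ∀ m, P m * P m = P m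
  comm : ∀ m i, P m * S i = S i * P m
  tendsto : ∀ x, Tendsto (fun m => P m x) atTop (𝓝 x)

lemma Cut.fix_fam {S : Bool → (H →L[ℂ] H)} {P : ℕ → (H →L[ℂ] H)} (hP : Cut S P) {m : ℕ} {ξ : H}
    (h : P m ξ = ξ) : ∀ n (w : Wd n), P m (fam S ξ n w) = fam S ξ n w
  | 0, _ => h
  | n + 1, w => by
      change P m (S w.1 (fam S ξ n w.2)) = S w.1 (fam S ξ n w.2)
      have h1 : P m (S w.1 (fam S ξ n w.2)) = S w.1 (P m (fam S ξ n w.2)) :=
        congrArg (fun T : H →L[ℂ] H => T (fam S ξ n w.2)) (hP.comm m w.1)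
      rw [h1, hP.fix_fam h n w.2]

lemma Cut.norm_le {S : Bool → (H →L[ℂ] H)} {P : ℕ → (H →L[ℂ] H)} (hP : Cut S P) (m : ℕ) (x : H) :
    ‖P m x‖ ≤ ‖x‖ := by
  have h1 : ⟪P m x, P m x⟫_ℂ = ⟪x, P m x⟫_ℂ := by
    have h2 : star (P m) = P m := hP.star_eq m
    rw [ContinuousLinearMap.star_eq_adjoint] at h2
    conv_lhs => rw [← ContinuousLinearMap.adjoint_inner_right, h2]
    have h3 : P m (P m x) = P m x := congrArg (fun T : H →L[ℂ] H => T x) (hP.idem m)
    rw [h3]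
  have h4 : ‖P m x‖ ^ 2 ≤ ‖x‖ * ‖P m x‖ := by
    have h5 : ‖⟪P m x, P m x⟫_ℂ‖ = ‖P m x‖ ^ 2 := by
      rw [inner_self_eq_norm_sq_to_K]; simp
    rw [← h5, h1]
    exact norm_inner_le_norm _ _
  by_contra hcon
  push Not at hcon
  have : 0 < ‖P m x‖ := lt_of_le_of_lt (norm_nonneg _) hcon
  nlinarith

/-- The main estimate. -/
lemma norm_le_of_compact_cut {S : Bool → (H →L[ℂ] H)} (hS : OrthIso S) {P : ℕ → (H →L[ℂ] H)}
    (hP : Cut S P) (X : H →L[ℂ] H) (hX : ∀ m, IsCompactOperator (X * P m : H →L[ℂ] H))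
    (hD : ∀ i, Fin' (X * S i - S i * X)) :
    ‖X‖ ≤ ∑ i, mnrm (X * S i - S i * X) := by
  refine opNorm_le_of_inner (Finset.sum_nonneg fun i _ => mnrm_nonneg _) fun ξ η hξ hη => ?_
  have key : ∀ m, ‖⟪η, X (P m ξ)⟫_ℂ‖ ≤ ∑ i, mnrm (X * S i - S i * X) := by
    intro m
    set ζ := P m ξ with hζ
    have hζ1 : ‖ζ‖ ≤ 1 := (hP.norm_le m ξ).trans hξ
    have hζ2 : P m ζ = ζ := by
      have h3 : P m (P m ξ) = P m ξ := congrArg (fun T : H →L[ℂ] H => T ξ) (hP.idem m)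
      exact h3
    have h1 : ∀ n, ‖⟪η, X ζ⟫_ℂ‖ ≤ term (X * P m) n + ∑ i, mnrm (X * S i - S i * X) := by
      intro n
      refine (inner_le_avg hS X hζ1 hη hD n).trans ?_
      gcongr
      have h2 : avg S X ζ η n = avg S (X * P m) ζ η n := by
        unfold avg
        congr 1
        refine Finset.sum_congr rfl fun w _ => ?_
        rw [mapply, hP.fix_fam hζ2]
      rw [h2]
      exact norm_avg_le hS _ hζ1 hη n
    have h2 : Tendsto (fun n => term (X * P m) n + ∑ i, mnrm (X * S i - S i * X)) atTop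
        (𝓝 (0 + ∑ i, mnrm (X * S i - S i * X))) :=
      (term_tendsto_zero (hX m)).add tendsto_const_nhds
    rw [zero_add] at h2
    exact ge_of_tendsto' h2 h1
  have hlim : Tendsto (fun m => ‖⟪η, X (P m ξ)⟫_ℂ‖) atTop (𝓝 ‖⟪η, X ξ⟫_ℂ‖) := by
    have h1 : Tendsto (fun m => X (P m ξ)) atTop (𝓝 (X ξ)) :=
      (X.continuous.tendsto _).comp (hP.tendsto ξ)
    exact (Filter.Tendsto.inner tendsto_const_nhds h1).norm
  exact le_of_tendsto' hlim key

lemma mnrm_cut_tendsto {S : Bool → (H →L[ℂ] H)} {P : ℕ → (H →L[ℂ] H)} (hP : Cut S P)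
    {D : H →L[ℂ] H} (hD : Mem D) : Tendsto (fun m => mnrm (D * (1 - P m))) atTop (𝓝 0) := by
  have hnorm : ∀ m, ‖(1 - P m : H →L[ℂ] H)‖ ≤ 2 := by
    intro m
    refine (norm_sub_le _ _).trans ?_
    have h1 : ‖(1 : H →L[ℂ] H)‖ ≤ 1 := ContinuousLinearMap.norm_id_le
    have h2 : ‖P m‖ ≤ 1 :=
      ContinuousLinearMap.opNorm_le_bound _ zero_le_one fun x => by
        rw [one_mul]; exact hP.norm_le m x
    linarith
  rw [Metric.tendsto_atTop]
  intro ε hε
  obtain ⟨F, hF, hDF⟩ := hD.2 (ε / 4) (by positivity)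
  obtain ⟨n, a, b, hb, hab⟩ := hF.exists_sum
  have h1 : Tendsto (fun m => ∑ i, ‖(1 - P m : H →L[ℂ] H) (a i)‖ * ‖b i‖) atTop (𝓝 0) := by
    have : (0 : ℝ) = ∑ i : Fin n, 0 * ‖b i‖ := by simp
    rw [this]
    refine tendsto_finset_sum _ fun i _ => Tendsto.mul_const _ ?_
    have h2 : Tendsto (fun m => a i - P m (a i)) atTop (𝓝 (a i - a i)) :=
      tendsto_const_nhds.sub (hP.tendsto (a i))
    rw [sub_self] at h2
    have h3 := h2.norm
    rw [norm_zero] at h3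
    exact h3
  rw [Metric.tendsto_atTop] at h1
  obtain ⟨N, hN⟩ := h1 (ε / 4) (by positivity)
  refine ⟨N, fun m hm => ?_⟩
  have h2 := hN m hm
  rw [Real.dist_eq, sub_zero, abs_of_nonneg (by positivity)] at h2
  rw [Real.dist_eq, sub_zero, abs_of_nonneg (mnrm_nonneg _)]
  have h3 : D * (1 - P m) = (D - F) * (1 - P m) + F * (1 - P m) := by noncomm_ring
  have h4 : Fin' ((D - F) * (1 - P m)) := by
    have := (hD.1.sub hF.fin).mul 1 (1 - P m)
    simpa using this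
  have h5 : mnrm ((D - F) * (1 - P m)) ≤ mnrm (D - F) * 2 := by
    have := mnrm_mul (hD.1.sub hF.fin) 1 (1 - P m)
    rw [one_mul] at this
    refine this.trans ?_
    have h6 : ‖(1 : H →L[ℂ] H)‖ ≤ 1 := ContinuousLinearMap.norm_id_le
    have h7 := mnrm_nonneg (D - F)
    have h8 := hnorm m
    calc ‖(1 : H →L[ℂ] H)‖ * mnrm (D - F) * ‖(1 - P m : H →L[ℂ] H)‖ ≤ 1 * mnrm (D - F) * 2 := by
          gcongr
      _ = _ := by ring
  have hFm : ∀ x, (F * (1 - P m)) x = ∑ i, ⟪(1 - P m : H →L[ℂ] H) (a i), x⟫_ℂ • b i := by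
    intro x
    rw [mapply, hab]
    refine Finset.sum_congr rfl fun i _ => ?_
    congr 1
    have h9 : star (1 - P m : H →L[ℂ] H) = 1 - P m := by
      rw [star_sub, star_one, hP.star_eq]
    rw [ContinuousLinearMap.star_eq_adjoint] at h9
    rw [← ContinuousLinearMap.adjoint_inner_left, h9]
  have h6 : ∀ k, kf k (F * (1 - P m)) ≤ ∑ i, ‖(1 - P m : H →L[ℂ] H) (a i)‖ * ‖b i‖ := fun k =>
    kf_le_of_sum Finset.univ _ _ _ hFm k
  have h7 := mnrm_le_of_bound h6
  have h8 : Fin' (F * (1 - P m)) := fin_of_bound h6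
  rw [h3]
  refine (mnrm_add h4 h8).trans_lt ?_
  linarith

/-- An operator with all commutators in the ideal whose restrictions to the corners are compact
is compact. -/
theorem compact_of_cut {S : Bool → (H →L[ℂ] H)} (hS : OrthIso S) {P : ℕ → (H →L[ℂ] H)}
    (hP : Cut S P) (X : H →L[ℂ] H) (hX : ∀ m, IsCompactOperator (X * P m : H →L[ℂ] H))
    (hD : ∀ i, Mem (X * S i - S i * X)) : IsCompactOperator X := by
  have hcl : IsClosed {T : H →L[ℂ] H | IsCompactOperator T} := isClosed_setOfPred_isCompactOperator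
  have hlim : Tendsto (fun m => X * P m) atTop (𝓝 X) := by
    rw [tendsto_iff_norm_sub_tendsto_zero]
    have h1 : Tendsto (fun m => ∑ i, mnrm ((X * S i - S i * X) * (1 - P m))) atTop (𝓝 0) := by
      have : (0 : ℝ) = ∑ i : Bool, 0 := by simp
      rw [this]
      exact tendsto_finset_sum _ fun i _ => mnrm_cut_tendsto hP (hD i)
    refine squeeze_zero (fun _ => norm_nonneg _) (fun m => ?_) h1
    have h2 : X * P m - X = -(X * (1 - P m)) := by noncomm_ring
    rw [h2, norm_neg]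
    have h3 : ∀ i, X * (1 - P m) * S i - S i * (X * (1 - P m)) = (X * S i - S i * X) * (1 - P m) := by
      intro i
      have := hP.comm m i
      calc X * (1 - P m) * S i - S i * (X * (1 - P m))
          = X * S i - X * (P m * S i) - S i * X + S i * X * P m := by noncomm_ring
        _ = X * S i - X * (S i * P m) - S i * X + S i * X * P m := by rw [this]
        _ = _ := by noncomm_ring
    have h4 := norm_le_of_compact_cut hS hP (X * (1 - P m)) ?_ ?_
    · simp only [h3] at h4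
      exact h4
    · intro m'
      have h5 : X * (1 - P m) * P m' = X * P m' - X * P m * P m' := by noncomm_ring
      rw [h5]
      have h6 : IsCompactOperator (X * P m * P m' : H →L[ℂ] H) := (hX m).comp_clm (P m')
      exact (hX m').sub h6
    · intro i
      rw [h3]
      have := (hD i).1.mul 1 (1 - P m)
      simpa using this
  have hmem : X ∈ closure {T : H →L[ℂ] H | IsCompactOperator T} :=
    mem_closure_of_tendsto hlim (Eventually.of_forall hX)
  rwa [hcl.closure_eq] at hmem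

end Pool.Agent.H516R3.Sat
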