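import Pool.Agent.H516R3.Sat.Unit

set_option autoImplicit false
set_option linter.all false

open scoped InnerProductSpace
open Filter Topology

noncomputable section

namespace Pool.Agent.H516R3.Sat.Fin

open Pool.Agent.H516R3.Sat

/-- the real parts and imaginary parts of the two isometries -/
def reP (S : HH →L[ℂ] HH) : HH →L[ℂ] HH := (2 : ℂ)⁻¹ • (S + star S)

/-- imaginary part -/
def imP (S : HH →L[ℂ] HH) : HH →L[ℂ] HH := (-(2 : ℂ)⁻¹ * Complex.I) • (S - star S)

lemma re_im (S : HH →L[ℂ] HH) : S = reP S + Complex.I • imP S := by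
  unfold reP imP
  rw [smul_smul]
  have h : Complex.I * (-(2 : ℂ)⁻¹ * Complex.I) = (2 : ℂ)⁻¹ := by
    rw [mul_comm, mul_assoc, Complex.I_mul_I]; ring
  rw [h, ← smul_add]
  have : S + star S + (S - star S) = (2 : ℂ) • S := by rw [two_smul]; abel
  rw [this, smul_smul]
  norm_num

lemma star_reP (S : HH →L[ℂ] HH) : star (reP S) = reP S := by
  unfold reP
  rw [star_smul, star_add, star_star, add_comm]
  simp

lemma star_imP (S : HH →L[ℂ] HH) : star (imP S) = imP S := by
  unfold imP
  rw [star_smul, star_sub, star_star]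
  have h : star (-(2 : ℂ)⁻¹ * Complex.I) = -(-(2 : ℂ)⁻¹ * Complex.I) := by
    simp
  rw [h, neg_smul, ← smul_neg, neg_sub]

/-- the 4-tuple of self-adjoint operators -/
def tau (j : Fin 4) : HH →L[ℂ] HH :=
  ![reP (SS false), imP (SS false), reP (SS true), imP (SS true)] j

lemma star_tau (j : Fin 4) : star (tau j) = tau j := by
  fin_cases j
  · exact star_reP _
  · exact star_imP _
  · exact star_reP _
  · exact star_imP _

/-- index of the real part of the isometry -/
lemma exists_idx (i : Bool) : ∃ j k : Fin 4, tau j = reP (SS i) ∧ tau k = imP (SS i) := by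
  cases i
  · exact ⟨0, 1, rfl, rfl⟩
  · exact ⟨2, 3, rfl, rfl⟩

lemma comm_eq (X : HH →L[ℂ] HH) (i : Bool) : X * SS i - SS i * X
    = (X * reP (SS i) - reP (SS i) * X) + Complex.I • (X * imP (SS i) - imP (SS i) * X) := by
  conv_lhs => rw [re_im (SS i)]
  rw [mul_add, add_mul, mul_smul_comm, smul_mul_assoc, smul_sub]
  abel

/-- the normed ideal -/
abbrev II : NormedIdeal HH := macaev HH

lemma mem_II {X : HH →L[ℂ] HH} : X ∈ II.carrier ↔ Mem X := Iff.rfl

lemma comm_mem {X : HH →L[ℂ] HH} (hX : X ∈ commMod II tau) (i : Bool) :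
    Mem (X * SS i - SS i * X) := by
  obtain ⟨j, k, hj, hk⟩ := exists_idx i
  rw [comm_eq, ← hj, ← hk]
  exact (mem_II.mp (hX j)).add ((mem_II.mp (hX k)).smul _)

lemma mem_commMod_of_commute {X : HH →L[ℂ] HH} (h : ∀ i, X * SS i = SS i * X)
    (hs : star X = X) : X ∈ commMod II tau := by
  have h' : ∀ i, X * star (SS i) = star (SS i) * X := by
    intro i
    have := congrArg star (h i)
    rw [star_mul, star_mul, hs] at this
    exact this.symm
  have hre : ∀ i, X * reP (SS i) - reP (SS i) * X = 0 := by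
    intro i
    unfold reP
    rw [mul_smul_comm, smul_mul_assoc, mul_add, add_mul, h, h', sub_self]
  have him : ∀ i, X * imP (SS i) - imP (SS i) * X = 0 := by
    intro i
    unfold imP
    rw [mul_smul_comm, smul_mul_assoc, mul_sub, sub_mul, h, h', sub_self]
  intro j
  have h0 : X * tau j - tau j * X = 0 := by
    fin_cases j
    · exact hre false
    · exact him false
    · exact hre true
    · exact him true
  rw [h0]
  exact Submodule.zero_mem _

/-- The star subalgebra `E(τ; I)` of `B(H)`. -/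
def EE : StarSubalgebra ℂ (HH →L[ℂ] HH) where
  carrier := commMod II tau
  mul_mem' := fun {X Y} hX hY j => by
    have h1 : X * Y * tau j - tau j * (X * Y)
        = X * (Y * tau j - tau j * Y) * 1 + 1 * (X * tau j - tau j * X) * Y := by
      noncomm_ring
    rw [h1]
    exact Submodule.add_mem _ (II.mul_mem _ _ _ (hY j)) (II.mul_mem _ _ _ (hX j))
  add_mem' := fun {X Y} hX hY j => by
    have h1 : (X + Y) * tau j - tau j * (X + Y)
        = (X * tau j - tau j * X) + (Y * tau j - tau j * Y) := by noncomm_ring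
    rw [h1]
    exact Submodule.add_mem _ (hX j) (hY j)
  algebraMap_mem' := fun c j => by
    have h1 : (algebraMap ℂ (HH →L[ℂ] HH) c) * tau j - tau j * (algebraMap ℂ (HH →L[ℂ] HH) c)
        = 0 := by
      rw [Algebra.commutes, sub_self]
    rw [h1]
    exact Submodule.zero_mem _
  star_mem' := fun {X} hX j => by
    have h1 : star X * tau j - tau j * star X = -star (X * tau j - tau j * X) := by
      rw [star_sub, star_mul, star_mul, star_tau]; abel
    rw [h1]
    exact Submodule.neg_mem _ (Mem.star (mem_II.mp (hX j)))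

/-- the quotient map as a star algebra homomorphism -/
def toCalkinStar : (HH →L[ℂ] HH) →⋆ₐ[ℂ] Calkin HH where
  toFun := toCalkin
  map_one' := map_one _
  map_mul' := map_mul _
  map_zero' := map_zero _
  map_add' := map_add _
  commutes' := fun c => rfl
  map_star' := fun T => toCalkin_star T

/-- `p(E(τ; I))` -/
def pE : StarSubalgebra ℂ (Calkin HH) := EE.map toCalkinStar

lemma pE_coe : (pE : Set (Calkin HH)) = toCalkin '' commMod II tau := rfl

lemma one_mem_comm : (1 : HH →L[ℂ] HH) ∈ commMod II tau := EE.one_mem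

lemma ee_mem (k : ℕ) : ee k ∈ commMod II tau :=
  mem_commMod_of_commute (fun i => mulOp_push _ _ _ _ _ _ fun a => rfl)
    (mulOp_star _ _ fun a => by unfold copyF; split_ifs <;> simp)

lemma PP_mem (m : ℕ) : PP m ∈ commMod II tau :=
  mem_commMod_of_commute (fun i => cut_PP.comm m i) (cut_PP.star_eq m)

lemma kMod_pos : 0 < kMod II tau := by
  have h : ENNReal.ofReal (1 / 8) ≤ kMod II tau := by
    refine le_sInf ?_
    rintro C ⟨A, hA1, hA2, hA3, hA4, hA5⟩
    refine ge_of_tendsto hA5 ?_
    have hx : ∀ᶠ m in atTop, 1 / 2 < ‖A m (dd 0)‖ := by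
      have h1 := (hA4 (dd 0)).norm
      rw [norm_dd] at h1
      exact h1.eventually (lt_mem_nhds (by norm_num))
    filter_upwards [hx] with m hm
    refine ENNReal.ofReal_le_ofReal ?_
    have hbdd : BddAbove (Set.range fun j => II.nrm (A m * tau j - tau j * A m)) :=
      Set.finite_range _ |>.bddAbove
    set M := ⨆ j, II.nrm (A m * tau j - tau j * A m) with hM
    have h1 : ∀ j, mnrm (A m * tau j - tau j * A m) ≤ M := fun j => le_ciSup hbdd j
    have hmem : ∀ j, Mem (A m * tau j - tau j * A m) := by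
      intro j
      have h2 := (hA1 m).mul 1 (tau j)
      have h3 := (hA1 m).mul (tau j) 1
      rw [one_mul] at h2
      rw [mul_one] at h3
      exact h2.mem.sub h3.mem
    have hfin : ∀ i, Fin' (A m * SS i - SS i * A m) := fun i => (comm_mem hmem i).1
    have h2 : ∀ i, mnrm (A m * SS i - SS i * A m) ≤ 2 * M := by
      intro i
      obtain ⟨j, k, hj, hk⟩ := exists_idx i
      rw [comm_eq, ← hj, ← hk]
      refine (mnrm_add (hmem j).1 ((hmem k).1.smul _)).trans ?_
      rw [mnrm_smul, Complex.norm_I, one_mul]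
      linarith [h1 j, h1 k]
    have h3 : ‖A m‖ ≤ ∑ i, mnrm (A m * SS i - SS i * A m) :=
      norm_le_of_compact_cut orthIso_SS cut_PP (A m)
        (fun m' => by
          have h4 := (hA1 m).mul 1 (PP m')
          rw [one_mul] at h4
          exact h4.isCompactOperator) hfin
    have h4 : ‖A m (dd 0)‖ ≤ ‖A m‖ := by
      have := (A m).le_opNorm (dd 0)
      rwa [norm_dd, mul_one] at this
    rw [Fintype.sum_bool] at h3
    linarith [h2 true, h2 false]
  refine lt_of_lt_of_le ?_ h
  rw [ENNReal.ofReal_pos]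
  norm_num

lemma kMod_lt_top : kMod II tau < ⊤ := by
  have hfinS : ∀ m i, Fin' (AA m * star (SS i) - star (SS i) * AA m) ∧
      mnrm (AA m * star (SS i) - star (SS i) * AA m) ≤ 2 := by
    intro m i
    have hs : star (AA m) = AA m := mulOp_star _ _ fun a => Complex.conj_ofReal _
    have h1 : AA m * star (SS i) - star (SS i) * AA m = -star (AA m * SS i - SS i * AA m) := by
      rw [star_sub, star_mul, star_mul, hs]; abel
    rw [h1, mnrm_neg, mnrm_star]
    refine ⟨Fin'.neg ?_, mnrm_comm_AA m i⟩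
    have h2 : Mem (AA m * SS i - SS i * AA m) := by
      have h2 := (AA_finRank m).mul 1 (SS i)
      have h3 := (AA_finRank m).mul (SS i) 1
      rw [one_mul] at h2
      rw [mul_one] at h3
      exact h2.mem.sub h3.mem
    exact h2.star.1
  have hre : ∀ m i, mnrm (AA m * reP (SS i) - reP (SS i) * AA m) ≤ 2 := by
    intro m i
    have h1 : AA m * reP (SS i) - reP (SS i) * AA m = (2 : ℂ)⁻¹ •
        ((AA m * SS i - SS i * AA m) + (AA m * star (SS i) - star (SS i) * AA m)) := by
      unfold reP
      rw [mul_smul_comm, smul_mul_assoc, ← smul_sub]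
      congr 1
      noncomm_ring
    rw [h1, mnrm_smul]
    have h2 := mnrm_add (fin_comm_AA m i) (hfinS m i).1
    have h3 : ‖(2 : ℂ)⁻¹‖ = 2⁻¹ := by simp
    rw [h3]
    linarith [mnrm_comm_AA m i, (hfinS m i).2]
  have him : ∀ m i, mnrm (AA m * imP (SS i) - imP (SS i) * AA m) ≤ 2 := by
    intro m i
    have h1 : AA m * imP (SS i) - imP (SS i) * AA m = (-(2 : ℂ)⁻¹ * Complex.I) •
        ((AA m * SS i - SS i * AA m) - (AA m * star (SS i) - star (SS i) * AA m)) := by
      unfold imP
      rw [mul_smul_comm, smul_mul_assoc, ← smul_sub]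
      congr 1
      noncomm_ring
    rw [h1, mnrm_smul]
    have h2 := mnrm_sub (fin_comm_AA m i) (hfinS m i).1
    have h3 : ‖-(2 : ℂ)⁻¹ * Complex.I‖ = 2⁻¹ := by simp
    rw [h3]
    linarith [mnrm_comm_AA m i, (hfinS m i).2]
  have hall : ∀ m j, II.nrm (AA m * tau j - tau j * AA m) ≤ 2 := by
    intro m j
    fin_cases j
    · exact hre m false
    · exact him m false
    · exact hre m true
    · exact him m true
  have hsup : ∀ m, (⨆ j, II.nrm (AA m * tau j - tau j * AA m)) ∈ Set.Icc (0 : ℝ) 2 := by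
    intro m
    refine ⟨Real.iSup_nonneg fun j => mnrm_nonneg _, ciSup_le (hall m)⟩
  obtain ⟨c, hc, φ, hφ, hlim⟩ := isCompact_Icc.tendsto_subseq hsup
  have hle : kMod II tau ≤ ENNReal.ofReal c := by
    refine sInf_le ⟨fun m => AA (φ m), fun m => AA_finRank _, fun m => ⟨AA_nonneg _, AA_le_one _⟩,
      fun m m' h => AA_mono (hφ.monotone h), fun x => (AA_tendsto x).comp hφ.tendsto_atTop, ?_⟩
    exact (ENNReal.continuous_ofReal.tendsto c).comp hlim
  exact hle.trans_lt ENNReal.ofReal_lt_top

lemma separable_HH : TopologicalSpace.SeparableSpace HH := by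
  let b : HilbertBasis Ix ℂ HH := ⟨LinearIsometryEquiv.refl ℂ HH⟩
  have h1 : TopologicalSpace.IsSeparable (Submodule.span ℂ (Set.range b) : Set HH) :=
    (Set.countable_range b).isSeparable.span
  have h2 := h1.closure
  have h3 : closure (Submodule.span ℂ (Set.range b) : Set HH) = Set.univ := by
    have := b.dense_span
    rw [← Submodule.topologicalClosure_coe, this]
    rfl
  rw [h3, TopologicalSpace.isSeparable_univ_iff] at h2
  exact h2

lemma not_finiteDimensional_HH : ¬ FiniteDimensional ℂ HH := by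
  intro h
  have ho : Orthonormal ℂ dd := by
    refine ⟨norm_dd, fun m n hmn => ?_⟩
    change ⟪dd m, dd n⟫_ℂ = 0
    rw [inner_dd]
    unfold dd
    have h1 : (([], n) : Ix) ≠ ([], m) := by
      intro h2
      simp at h2
      exact hmn h2.symm
    rw [lp.single_apply_ne _ _ _ h1]
    simp
  exact Set.infinite_univ (α := ℕ) (Set.finite_univ_iff.mpr ho.linearIndependent.finite)

lemma nrm_rankOne (X : HH →L[ℂ] HH) (a b : HH) (h : ∀ x, X x = ⟪a, x⟫_ℂ • b) :
    II.nrm X = ‖X‖ := by
  have h1 : ∀ x, X x = ∑ i ∈ ({0} : Finset (Fin 1)), ⟪a, x⟫_ℂ • b := by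
    intro x; rw [h x]; simp
  have hfin : FinRank X := finRank_of_sum _ (fun _ => a) (fun _ => b) X h1
  refine le_antisymm ?_ (norm_le_mnrm hfin.fin)
  refine mnrm_le_of_bound fun k => ?_
  have h2 := kf_le_of_sum ({0} : Finset (Fin 1)) (fun _ => a) (fun _ => b) X h1 k
  refine h2.trans ?_
  simp only [Finset.sum_singleton]
  rcases eq_or_ne a 0 with rfl | ha
  · simp
  have ha' : 0 < ‖a‖ := norm_pos_iff.mpr ha
  have h3 := X.le_opNorm a
  rw [h, norm_smul] at h3
  have h4 : ‖⟪a, a⟫_ℂ‖ = ‖a‖ * ‖a‖ := by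
    rw [inner_self_eq_norm_sq_to_K]; simp [pow_two]
  rw [h4] at h3
  nlinarith


end Pool.Agent.H516R3.Sat.Fin
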