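import Pool.Agent.H516R3.Sat.KyFan

set_option autoImplicit false
set_option linter.all false

open scoped InnerProductSpace
open Filter Topology

noncomputable section

namespace Pool.Agent.H516R3.Sat

variable {H : Type*} [NormedAddCommGroup H] [InnerProductSpace ℂ H] [CompleteSpace H]

/-- A normed ideal of compact operators: a two-sided ideal between the finite rank and the compact
operators, complete in a norm with `|A X B| ≤ ‖A‖ |X| ‖B‖`. -/
structure NormedIdeal (H : Type*) [NormedAddCommGroup H] [InnerProductSpace ℂ H]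
    [CompleteSpace H] where
  /-- the underlying subspace -/
  carrier : Submodule ℂ (H →L[ℂ] H)
  /-- the norm (relevant only on `carrier`) -/
  nrm : (H →L[ℂ] H) → ℝ
  mul_mem : ∀ A X B : H →L[ℂ] H, X ∈ carrier → A * X * B ∈ carrier
  finRank_mem : ∀ X : H →L[ℂ] H, FinRank X → X ∈ carrier
  isCompact : ∀ X ∈ carrier, IsCompactOperator X
  nrm_nonneg : ∀ X ∈ carrier, 0 ≤ nrm X
  nrm_eq_zero : ∀ X ∈ carrier, nrm X = 0 → X = 0
  nrm_add_le : ∀ X ∈ carrier, ∀ Y ∈ carrier, nrm (X + Y) ≤ nrm X + nrm Y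
  nrm_smul : ∀ (c : ℂ), ∀ X ∈ carrier, nrm (c • X) = ‖c‖ * nrm X
  nrm_mul_le : ∀ A X B : H →L[ℂ] H, X ∈ carrier → nrm (A * X * B) ≤ ‖A‖ * nrm X * ‖B‖
  complete : ∀ u : ℕ → (H →L[ℂ] H), (∀ n, u n ∈ carrier) →
    (∀ ε : ℝ, 0 < ε → ∃ N, ∀ m ≥ N, ∀ n ≥ N, nrm (u m - u n) < ε) →
    ∃ X ∈ carrier, Tendsto (fun n => nrm (u n - X)) atTop (𝓝 0)

/-- The terms of the series defining the norm. -/
def term (X : H →L[ℂ] H) (n : ℕ) : ℝ := (2 : ℝ)⁻¹ ^ n * kf (2 ^ n) X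

/-- The norm `|X| = (1/2) ∑ₙ 2⁻ⁿ σ_{2ⁿ}(X)` (an equivalent norm of the Macaev ideal). -/
def mnrm (X : H →L[ℂ] H) : ℝ := (2 : ℝ)⁻¹ * ∑' n, term X n

/-- finiteness of the norm -/
def Fin' (X : H →L[ℂ] H) : Prop := Summable (term X)

lemma term_nonneg (X : H →L[ℂ] H) (n : ℕ) : 0 ≤ term X n :=
  mul_nonneg (by positivity) (kf_nonneg _ _)

lemma term_add (X Y : H →L[ℂ] H) (n : ℕ) : term (X + Y) n ≤ term X n + term Y n := by
  unfold term
  rw [← mul_add]
  have := kf_add (2 ^ n) X Y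
  gcongr

lemma term_smul (c : ℂ) (X : H →L[ℂ] H) (n : ℕ) : term (c • X) n = ‖c‖ * term X n := by
  unfold term
  rw [kf_smul]; ring

lemma term_mul (A X B : H →L[ℂ] H) (n : ℕ) : term (A * X * B) n ≤ ‖A‖ * term X n * ‖B‖ := by
  unfold term
  have := kf_mul (2 ^ n) A X B
  calc (2 : ℝ)⁻¹ ^ n * kf (2 ^ n) (A * X * B) ≤ (2 : ℝ)⁻¹ ^ n * (‖A‖ * kf (2 ^ n) X * ‖B‖) := by
        gcongr
    _ = _ := by ring

lemma Fin'.add {X Y : H →L[ℂ] H} (hX : Fin' X) (hY : Fin' Y) : Fin' (X + Y) :=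
  Summable.of_nonneg_of_le (term_nonneg _) (term_add X Y) (Summable.add hX hY)

lemma Fin'.smul {X : H →L[ℂ] H} (hX : Fin' X) (c : ℂ) : Fin' (c • X) := by
  have : term (c • X) = fun n => ‖c‖ * term X n := funext fun n => term_smul c X n
  unfold Fin'
  rw [this]
  exact hX.mul_left _

lemma Fin'.neg {X : H →L[ℂ] H} (hX : Fin' X) : Fin' (-X) := by
  have := hX.smul (-1)
  simpa using this

lemma Fin'.sub {X Y : H →L[ℂ] H} (hX : Fin' X) (hY : Fin' Y) : Fin' (X - Y) := by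
  rw [sub_eq_add_neg]; exact hX.add hY.neg

lemma Fin'.mul {X : H →L[ℂ] H} (hX : Fin' X) (A B : H →L[ℂ] H) : Fin' (A * X * B) :=
  Summable.of_nonneg_of_le (term_nonneg _) (term_mul A X B)
    ((Summable.mul_left _ hX).mul_right _)

lemma mnrm_nonneg (X : H →L[ℂ] H) : 0 ≤ mnrm X :=
  mul_nonneg (by norm_num) (tsum_nonneg (term_nonneg X))

lemma mnrm_add {X Y : H →L[ℂ] H} (hX : Fin' X) (hY : Fin' Y) :
    mnrm (X + Y) ≤ mnrm X + mnrm Y := by
  unfold mnrm
  rw [← mul_add, ← Summable.tsum_add hX hY]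
  have := Summable.tsum_le_tsum (term_add X Y) (hX.add hY) (Summable.add hX hY)
  linarith

lemma mnrm_smul (c : ℂ) (X : H →L[ℂ] H) : mnrm (c • X) = ‖c‖ * mnrm X := by
  unfold mnrm
  have : term (c • X) = fun n => ‖c‖ * term X n := funext fun n => term_smul c X n
  rw [this, tsum_mul_left]; ring

lemma mnrm_neg (X : H →L[ℂ] H) : mnrm (-X) = mnrm X := by
  have := mnrm_smul (-1) X
  simpa using this

lemma mnrm_sub {X Y : H →L[ℂ] H} (hX : Fin' X) (hY : Fin' Y) :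
    mnrm (X - Y) ≤ mnrm X + mnrm Y := by
  rw [sub_eq_add_neg]
  exact (mnrm_add hX hY.neg).trans (by rw [mnrm_neg])

lemma mnrm_mul {X : H →L[ℂ] H} (hX : Fin' X) (A B : H →L[ℂ] H) :
    mnrm (A * X * B) ≤ ‖A‖ * mnrm X * ‖B‖ := by
  unfold mnrm
  have h1 : ∑' n, term (A * X * B) n ≤ ∑' n, ‖A‖ * term X n * ‖B‖ :=
    Summable.tsum_le_tsum (term_mul A X B) (hX.mul A B) ((Summable.mul_left _ hX).mul_right _)
  rw [tsum_mul_right, tsum_mul_left] at h1
  calc (2 : ℝ)⁻¹ * ∑' n, term (A * X * B) n ≤ (2 : ℝ)⁻¹ * ((‖A‖ * ∑' n, term X n) * ‖B‖) := by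
        linarith [h1]
    _ = _ := by ring

lemma hasSum_geo : HasSum (fun n : ℕ => (2 : ℝ)⁻¹ ^ n) 2 := by
  have := hasSum_geometric_of_lt_one (r := (2 : ℝ)⁻¹) (by norm_num) (by norm_num)
  convert this using 1
  norm_num

lemma norm_le_mnrm {X : H →L[ℂ] H} (hX : Fin' X) : ‖X‖ ≤ mnrm X := by
  unfold mnrm
  have h1 : ∑' n : ℕ, (2 : ℝ)⁻¹ ^ n * ‖X‖ ≤ ∑' n, term X n := by
    refine Summable.tsum_le_tsum (fun n => ?_) (hasSum_geo.summable.mul_right _) hX
    unfold term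
    have := norm_le_kf (k := 2 ^ n) (by positivity) X
    gcongr
  rw [tsum_mul_right, hasSum_geo.tsum_eq] at h1
  linarith

lemma term_le_of_bound {X : H →L[ℂ] H} {r : ℝ} (h : ∀ k, kf k X ≤ r) (n : ℕ) :
    term X n ≤ (2 : ℝ)⁻¹ ^ n * r := by
  unfold term
  have := h (2 ^ n)
  gcongr

lemma fin_of_bound {X : H →L[ℂ] H} {r : ℝ} (h : ∀ k, kf k X ≤ r) : Fin' X :=
  Summable.of_nonneg_of_le (term_nonneg _) (term_le_of_bound h) (hasSum_geo.summable.mul_right _)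

lemma mnrm_le_of_bound {X : H →L[ℂ] H} {r : ℝ} (h : ∀ k, kf k X ≤ r) : mnrm X ≤ r := by
  unfold mnrm
  have h1 : ∑' n, term X n ≤ ∑' n : ℕ, (2 : ℝ)⁻¹ ^ n * r :=
    Summable.tsum_le_tsum (term_le_of_bound h) (fin_of_bound h) (hasSum_geo.summable.mul_right _)
  rw [tsum_mul_right, hasSum_geo.tsum_eq] at h1
  linarith

lemma FinRank.fin {X : H →L[ℂ] H} (hX : FinRank X) : Fin' X := by
  obtain ⟨n, a, b, _, h⟩ := hX.exists_sum
  exact fin_of_bound fun k => kf_le_of_sum Finset.univ a b X h k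

lemma fin_zero : Fin' (0 : H →L[ℂ] H) := finRank_zero.fin

lemma mnrm_zero : mnrm (0 : H →L[ℂ] H) = 0 :=
  le_antisymm (mnrm_le_of_bound fun k => (kf_zero k).le) (mnrm_nonneg _)

/-- Membership in the ideal: the closure of the finite rank operators. -/
def Mem (X : H →L[ℂ] H) : Prop :=
  Fin' X ∧ ∀ ε : ℝ, 0 < ε → ∃ F : H →L[ℂ] H, FinRank F ∧ mnrm (X - F) < ε

lemma FinRank.mem {X : H →L[ℂ] H} (hX : FinRank X) : Mem X :=
  ⟨hX.fin, fun ε hε => ⟨X, hX, by simpa [mnrm_zero] using hε⟩⟩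

lemma Mem.add {X Y : H →L[ℂ] H} (hX : Mem X) (hY : Mem Y) : Mem (X + Y) := by
  refine ⟨hX.1.add hY.1, fun ε hε => ?_⟩
  obtain ⟨F, hF, h1⟩ := hX.2 (ε / 2) (by positivity)
  obtain ⟨G, hG, h2⟩ := hY.2 (ε / 2) (by positivity)
  refine ⟨F + G, hF.add hG, ?_⟩
  have : X + Y - (F + G) = (X - F) + (Y - G) := by abel
  rw [this]
  linarith [mnrm_add (hX.1.sub hF.fin) (hY.1.sub hG.fin)]

lemma Mem.mul {X : H →L[ℂ] H} (hX : Mem X) (A B : H →L[ℂ] H) : Mem (A * X * B) := by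
  refine ⟨hX.1.mul A B, fun ε hε => ?_⟩
  obtain ⟨F, hF, h1⟩ := hX.2 (ε / (‖A‖ * ‖B‖ + 1)) (by positivity)
  refine ⟨A * F * B, hF.mul A B, ?_⟩
  have : A * X * B - A * F * B = A * (X - F) * B := by noncomm_ring
  rw [this]
  refine (mnrm_mul (hX.1.sub hF.fin) A B).trans_lt ?_
  have h0 := mnrm_nonneg (X - F)
  rw [lt_div_iff₀ (by positivity)] at h1
  nlinarith [norm_nonneg A, norm_nonneg B]

lemma Mem.smul {X : H →L[ℂ] H} (hX : Mem X) (c : ℂ) : Mem (c • X) := by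
  have := hX.mul (c • 1) 1
  simpa using this

lemma Mem.neg {X : H →L[ℂ] H} (hX : Mem X) : Mem (-X) := by
  have := hX.smul (-1)
  simpa using this

lemma Mem.sub {X Y : H →L[ℂ] H} (hX : Mem X) (hY : Mem Y) : Mem (X - Y) := by
  rw [sub_eq_add_neg]; exact hX.add hY.neg

lemma mem_zero : Mem (0 : H →L[ℂ] H) := finRank_zero.mem

lemma FinRank.isCompactOperator {X : H →L[ℂ] H} (hX : FinRank X) : IsCompactOperator X := by
  obtain ⟨n, a, b, _, h⟩ := hX.exists_sum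
  let Y : H →L[ℂ] (Fin n → ℂ) := ContinuousLinearMap.pi fun i => innerSL ℂ (a i)
  let Z : (Fin n → ℂ) →L[ℂ] H :=
    ∑ i, (ContinuousLinearMap.smulRight (ContinuousLinearMap.proj i : (Fin n → ℂ) →L[ℂ] ℂ) (b i))
  have hXZ : X = Z.comp Y := by
    ext x
    rw [h]
    simp [Y, Z]
  have hY : IsCompactOperator Y := isCompactOperator_of_locallyCompactSpace_dom Y
  rw [hXZ]
  exact hY.clm_comp Z

lemma Mem.isCompactOperator {X : H →L[ℂ] H} (hX : Mem X) : IsCompactOperator X := by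
  have hcl : IsClosed {T : H →L[ℂ] H | IsCompactOperator T} := isClosed_setOfPred_isCompactOperator
  have : X ∈ closure {T : H →L[ℂ] H | IsCompactOperator T} := by
    rw [Metric.mem_closure_iff]
    intro ε hε
    obtain ⟨F, hF, h⟩ := hX.2 ε hε
    refine ⟨F, hF.isCompactOperator, ?_⟩
    rw [dist_eq_norm]
    exact (norm_le_mnrm (hX.1.sub hF.fin)).trans_lt h
  rwa [hcl.closure_eq] at this

lemma kf_sub_abs (k : ℕ) (X Y : H →L[ℂ] H) : |kf k X - kf k Y| ≤ k * ‖X - Y‖ := by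
  rw [abs_le]
  have h1 : kf k X ≤ kf k (X - Y) + kf k Y := by
    have := kf_add k (X - Y) Y
    simpa using this
  have h2 : kf k Y ≤ kf k (Y - X) + kf k X := by
    have := kf_add k (Y - X) X
    simpa using this
  have h3 := kf_le_mul k (X - Y)
  have h4 := kf_le_mul k (Y - X)
  rw [norm_sub_rev] at h4
  constructor <;> linarith

lemma term_tendsto {u : ℕ → (H →L[ℂ] H)} {X : H →L[ℂ] H} (hu : Tendsto u atTop (𝓝 X)) (n : ℕ) :
    Tendsto (fun l => term (u l) n) atTop (𝓝 (term X n)) := by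
  unfold term
  refine Tendsto.const_mul _ ?_
  rw [tendsto_iff_dist_tendsto_zero]
  have h1 : Tendsto (fun l => ((2 ^ n : ℕ) : ℝ) * ‖u l - X‖) atTop (𝓝 0) := by
    have := (tendsto_iff_norm_sub_tendsto_zero.mp hu).const_mul (((2 ^ n : ℕ) : ℝ))
    simpa using this
  refine squeeze_zero (fun _ => dist_nonneg) (fun l => ?_) h1
  rw [Real.dist_eq]
  exact kf_sub_abs _ _ _

lemma complete_aux (u : ℕ → (H →L[ℂ] H)) (hu : ∀ n, Mem (u n))
    (hc : ∀ ε : ℝ, 0 < ε → ∃ N, ∀ m ≥ N, ∀ n ≥ N, mnrm (u m - u n) < ε) :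
    ∃ X, Mem X ∧ Tendsto (fun n => mnrm (u n - X)) atTop (𝓝 0) := by
  have hcau : CauchySeq u := by
    rw [Metric.cauchySeq_iff]
    intro ε hε
    obtain ⟨N, hN⟩ := hc ε hε
    refine ⟨N, fun m hm n hn => ?_⟩
    rw [dist_eq_norm]
    exact (norm_le_mnrm ((hu m).1.sub (hu n).1)).trans_lt (hN m hm n hn)
  obtain ⟨X, hX⟩ := cauchySeq_tendsto_of_complete hcau
  have key : ∀ ε : ℝ, 0 < ε → ∃ N, ∀ n ≥ N, Fin' (u n - X) ∧ mnrm (u n - X) ≤ ε := by
    intro ε hε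
    obtain ⟨N, hN⟩ := hc ε hε
    refine ⟨N, fun n hn => ?_⟩
    have hpart : ∀ s : Finset ℕ, ∑ i ∈ s, term (u n - X) i ≤ 2 * ε := by
      intro s
      have hlim : Tendsto (fun l => ∑ i ∈ s, term (u n - u l) i) atTop
          (𝓝 (∑ i ∈ s, term (u n - X) i)) := by
        refine tendsto_finset_sum _ fun i _ => term_tendsto ?_ i
        exact tendsto_const_nhds.sub hX
      refine le_of_tendsto hlim ?_
      filter_upwards [eventually_ge_atTop N] with l hl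
      have h1 := hN n hn l hl
      have h2 : ∑ i ∈ s, term (u n - u l) i ≤ ∑' i, term (u n - u l) i :=
        Summable.sum_le_tsum s (fun i _ => term_nonneg _ _) ((hu n).1.sub (hu l).1)
      unfold mnrm at h1
      linarith
    have hsum : Summable (term (u n - X)) :=
      summable_of_sum_le (term_nonneg _) hpart
    refine ⟨hsum, ?_⟩
    have := hsum.tsum_le_of_sum_le hpart
    unfold mnrm
    linarith
  obtain ⟨N, hN⟩ := key 1 one_pos
  have hXf : Fin' X := by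
    have h1 := (hu N).1.sub (hN N le_rfl).1
    simpa using h1
  refine ⟨X, ⟨hXf, fun ε hε => ?_⟩, ?_⟩
  · obtain ⟨M, hM⟩ := key (ε / 2) (by positivity)
    obtain ⟨F, hF, h⟩ := (hu M).2 (ε / 2) (by positivity)
    refine ⟨F, hF, ?_⟩
    have h2 : X - F = -(u M - X) + (u M - F) := by abel
    rw [h2]
    have h3 := mnrm_add (hM M le_rfl).1.neg ((hu M).1.sub hF.fin)
    rw [mnrm_neg] at h3
    linarith [(hM M le_rfl).2]
  · rw [Metric.tendsto_atTop]
    intro ε hε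
    obtain ⟨M, hM⟩ := key (ε / 2) (by positivity)
    refine ⟨M, fun n hn => ?_⟩
    rw [Real.dist_eq, sub_zero, abs_of_nonneg (mnrm_nonneg _)]
    linarith [(hM n hn).2]

/-- The (Macaev type) normed ideal. -/
def macaev (H : Type*) [NormedAddCommGroup H] [InnerProductSpace ℂ H] [CompleteSpace H] :
    NormedIdeal H where
  carrier :=
    { carrier := {X | Mem X}
      add_mem' := fun hX hY => Mem.add hX hY
      zero_mem' := mem_zero
      smul_mem' := fun c X hX => Mem.smul hX c }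
  nrm := mnrm
  mul_mem := fun A X B hX => Mem.mul hX A B
  finRank_mem := fun X hX => hX.mem
  isCompact := fun X hX => Mem.isCompactOperator hX
  nrm_nonneg := fun X _ => mnrm_nonneg X
  nrm_eq_zero := fun X hX h => by
    have h1 : Mem X := hX
    have := norm_le_mnrm h1.1
    rw [h] at this
    exact norm_le_zero_iff.mp this
  nrm_add_le := fun X hX Y hY => mnrm_add hX.1 hY.1
  nrm_smul := fun c X _ => mnrm_smul c X
  nrm_mul_le := fun A X B hX => mnrm_mul hX.1 A B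
  complete := complete_aux

end Pool.Agent.H516R3.Sat
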