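import Mathlib

set_option autoImplicit false
set_option linter.all false

open scoped InnerProductSpace
open Filter Topology

noncomputable section

namespace Pool.Agent.H516R3.Sat

variable {H : Type*} [NormedAddCommGroup H] [InnerProductSpace ℂ H] [CompleteSpace H]

/-- The family `v` is the image of the standard basis under a contraction. -/
def Con {ι : Type*} [Fintype ι] (v : ι → H) : Prop :=
  ∀ c : ι → ℂ, ‖∑ i, c i • v i‖ ^ 2 ≤ ∑ i, ‖c i‖ ^ 2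

lemma con_zero {ι : Type*} [Fintype ι] : Con (fun _ : ι => (0 : H)) := by
  intro c
  simp
  positivity

lemma Con.map {ι : Type*} [Fintype ι] {v : ι → H} (hv : Con v) {A : H →L[ℂ] H} (hA : ‖A‖ ≤ 1) :
    Con (fun i => A (v i)) := by
  intro c
  have h1 : ∑ i, c i • A (v i) = A (∑ i, c i • v i) := by simp
  rw [h1]
  refine le_trans ?_ (hv c)
  have h2 : ‖A (∑ i, c i • v i)‖ ≤ ‖∑ i, c i • v i‖ := by
    refine (A.le_opNorm _).trans ?_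
    exact mul_le_of_le_one_left (norm_nonneg _) hA
  gcongr

lemma Con.bessel {ι : Type*} [Fintype ι] {v : ι → H} (hv : Con v) (u : H) :
    ∑ i, ‖⟪v i, u⟫_ℂ‖ ^ 2 ≤ ‖u‖ ^ 2 := by
  set s := ∑ i, ‖⟪v i, u⟫_ℂ‖ ^ 2 with hs
  have hs0 : 0 ≤ s := by positivity
  have h1 : ‖∑ i, ⟪v i, u⟫_ℂ • v i‖ ^ 2 ≤ s := hv _
  have h2 : (s : ℂ) = ⟪∑ i, ⟪v i, u⟫_ℂ • v i, u⟫_ℂ := by
    rw [sum_inner]
    simp only [inner_smul_left]
    rw [hs]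
    push_cast
    refine Finset.sum_congr rfl fun i _ => ?_
    rw [← Complex.conj_mul']
  have h3 : s ≤ ‖∑ i, ⟪v i, u⟫_ℂ • v i‖ * ‖u‖ := by
    have := norm_inner_le_norm (𝕜 := ℂ) (∑ i, ⟪v i, u⟫_ℂ • v i) u
    rw [← h2] at this
    simpa [abs_of_nonneg hs0] using this
  have h4 : s ^ 2 ≤ s * ‖u‖ ^ 2 := by
    calc s ^ 2 ≤ (‖∑ i, ⟪v i, u⟫_ℂ • v i‖ * ‖u‖) ^ 2 := by gcongr
      _ = ‖∑ i, ⟪v i, u⟫_ℂ • v i‖ ^ 2 * ‖u‖ ^ 2 := by ring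
      _ ≤ s * ‖u‖ ^ 2 := by gcongr
  rcases eq_or_lt_of_le hs0 with h | h
  · rw [← h]; positivity
  · nlinarith

lemma Con.norm_le {ι : Type*} [Fintype ι] {v : ι → H} (hv : Con v) (i : ι) : ‖v i‖ ≤ 1 := by
  classical
  have := hv (fun j => if j = i then 1 else 0)
  simp at this
  have h : (∑ x : ι, ‖if x = i then (1 : ℂ) else 0‖ ^ 2) = 1 := by
    rw [Finset.sum_eq_single i] <;> simp +contextual
  rw [h] at this
  nlinarith [norm_nonneg (v i)]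

/-- The Ky Fan `k`-norm (sum of the `k` largest singular values), in variational form. -/
def kf (k : ℕ) (X : H →L[ℂ] H) : ℝ :=
  sSup {r | ∃ v w : Fin k → H, Con v ∧ Con w ∧ r = ‖∑ i, ⟪w i, X (v i)⟫_ℂ‖}

lemma kf_bdd (k : ℕ) (X : H →L[ℂ] H) :
    BddAbove {r | ∃ v w : Fin k → H, Con v ∧ Con w ∧ r = ‖∑ i, ⟪w i, X (v i)⟫_ℂ‖} := by
  refine ⟨k * ‖X‖, ?_⟩
  rintro r ⟨v, w, hv, hw, rfl⟩
  refine (norm_sum_le _ _).trans ?_
  have : ∀ i ∈ Finset.univ, ‖⟪w i, X (v i)⟫_ℂ‖ ≤ ‖X‖ := by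
    intro i _
    refine (norm_inner_le_norm _ _).trans ?_
    have h1 := hw.norm_le i
    have h2 := hv.norm_le i
    have h3 : ‖X (v i)‖ ≤ ‖X‖ * 1 := (X.le_opNorm _).trans (by gcongr)
    calc ‖w i‖ * ‖X (v i)‖ ≤ 1 * (‖X‖ * 1) := by gcongr
      _ = ‖X‖ := by ring
  refine (Finset.sum_le_sum this).trans ?_
  simp

lemma kf_nonempty (k : ℕ) (X : H →L[ℂ] H) :
    ({r | ∃ v w : Fin k → H, Con v ∧ Con w ∧ r = ‖∑ i, ⟪w i, X (v i)⟫_ℂ‖}).Nonempty :=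
  ⟨_, fun _ => 0, fun _ => 0, con_zero, con_zero, rfl⟩

lemma le_kf {k : ℕ} (X : H →L[ℂ] H) {v w : Fin k → H} (hv : Con v) (hw : Con w) :
    ‖∑ i, ⟪w i, X (v i)⟫_ℂ‖ ≤ kf k X :=
  le_csSup (kf_bdd k X) ⟨v, w, hv, hw, rfl⟩

lemma le_kf' {ι : Type*} [Fintype ι] {k : ℕ} (hk : Fintype.card ι = k) (X : H →L[ℂ] H)
    {v w : ι → H} (hv : Con v) (hw : Con w) :
    ‖∑ i, ⟪w i, X (v i)⟫_ℂ‖ ≤ kf k X := by
  let e := (Fintype.equivFinOfCardEq hk).symm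
  have key : ∀ {u : ι → H}, Con u → Con (fun i => u (e i)) := by
    intro u hu c
    have := hu (fun i => c (e.symm i))
    have h1 : ∑ i, c (e.symm i) • u i = ∑ i, c i • u (e i) := by
      rw [← e.sum_comp]; simp
    have h2 : ∑ i, ‖c (e.symm i)‖ ^ 2 = ∑ i, ‖c i‖ ^ 2 := by
      rw [← e.sum_comp]; simp
    rwa [h1, h2] at this
  have := le_kf X (key hv) (key hw)
  rwa [e.sum_comp (fun i => ⟪w i, X (v i)⟫_ℂ)] at this

lemma kf_le {k : ℕ} {X : H →L[ℂ] H} {r : ℝ}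
    (h : ∀ v w : Fin k → H, Con v → Con w → ‖∑ i, ⟪w i, X (v i)⟫_ℂ‖ ≤ r) : kf k X ≤ r := by
  refine csSup_le (kf_nonempty k X) ?_
  rintro _ ⟨v, w, hv, hw, rfl⟩
  exact h v w hv hw

lemma kf_nonneg (k : ℕ) (X : H →L[ℂ] H) : 0 ≤ kf k X :=
  (norm_nonneg _).trans (le_kf X (con_zero (ι := Fin k)) (con_zero (ι := Fin k)))

lemma kf_le_mul (k : ℕ) (X : H →L[ℂ] H) : kf k X ≤ k * ‖X‖ := by
  refine kf_le fun v w hv hw => ?_
  refine (norm_sum_le _ _).trans ?_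
  have : ∀ i ∈ Finset.univ, ‖⟪w i, X (v i)⟫_ℂ‖ ≤ ‖X‖ := by
    intro i _
    refine (norm_inner_le_norm _ _).trans ?_
    have h1 := hw.norm_le i
    have h2 := hv.norm_le i
    have h3 : ‖X (v i)‖ ≤ ‖X‖ * 1 := (X.le_opNorm _).trans (by gcongr)
    calc ‖w i‖ * ‖X (v i)‖ ≤ 1 * (‖X‖ * 1) := by gcongr
      _ = ‖X‖ := by ring
  refine (Finset.sum_le_sum this).trans ?_
  simp

lemma kf_add (k : ℕ) (X Y : H →L[ℂ] H) : kf k (X + Y) ≤ kf k X + kf k Y := by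
  refine kf_le fun v w hv hw => ?_
  have : ∑ i, ⟪w i, (X + Y) (v i)⟫_ℂ = ∑ i, ⟪w i, X (v i)⟫_ℂ + ∑ i, ⟪w i, Y (v i)⟫_ℂ := by
    rw [← Finset.sum_add_distrib]
    simp [inner_add_right]
  rw [this]
  exact (norm_add_le _ _).trans (add_le_add (le_kf X hv hw) (le_kf Y hv hw))

lemma kf_smul_le (k : ℕ) (a : ℂ) (X : H →L[ℂ] H) : kf k (a • X) ≤ ‖a‖ * kf k X := by
  refine kf_le fun v w hv hw => ?_
  have : ∑ i, ⟪w i, (a • X) (v i)⟫_ℂ = a * ∑ i, ⟪w i, X (v i)⟫_ℂ := by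
    rw [Finset.mul_sum]
    simp [inner_smul_right]
  rw [this, norm_mul]
  have := le_kf X hv hw
  gcongr

lemma kf_zero (k : ℕ) : kf k (0 : H →L[ℂ] H) = 0 := by
  refine le_antisymm (kf_le fun v w _ _ => ?_) (kf_nonneg _ _)
  simp

lemma kf_smul (k : ℕ) (a : ℂ) (X : H →L[ℂ] H) : kf k (a • X) = ‖a‖ * kf k X := by
  rcases eq_or_ne a 0 with rfl | ha
  · simp [kf_zero]
  refine le_antisymm (kf_smul_le k a X) ?_
  have h := kf_smul_le k a⁻¹ (a • X)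
  rw [smul_smul, inv_mul_cancel₀ ha, one_smul, norm_inv] at h
  have ha' : 0 < ‖a‖ := norm_pos_iff.mpr ha
  calc ‖a‖ * kf k X ≤ ‖a‖ * (‖a‖⁻¹ * kf k (a • X)) := by gcongr
    _ = kf k (a • X) := by field_simp

lemma kf_neg (k : ℕ) (X : H →L[ℂ] H) : kf k (-X) = kf k X := by
  have := kf_smul k (-1) X
  simpa using this

lemma kf_sub (k : ℕ) (X Y : H →L[ℂ] H) : kf k (X - Y) ≤ kf k X + kf k Y := by
  rw [sub_eq_add_neg]
  refine (kf_add k X (-Y)).trans ?_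
  rw [kf_neg]

lemma kf_mul_aux (k : ℕ) {A B : H →L[ℂ] H} (hA : ‖A‖ ≤ 1) (hB : ‖B‖ ≤ 1) (X : H →L[ℂ] H) :
    kf k (A * X * B) ≤ kf k X := by
  refine kf_le fun v w hv hw => ?_
  have : ∑ i, ⟪w i, (A * X * B) (v i)⟫_ℂ = ∑ i, ⟪(ContinuousLinearMap.adjoint A) (w i), X (B (v i))⟫_ℂ := by
    refine Finset.sum_congr rfl fun i _ => ?_
    rw [ContinuousLinearMap.adjoint_inner_left]
    rfl
  rw [this]
  refine le_kf X (hv.map hB) (hw.map ?_)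
  simpa using hA

lemma kf_mul (k : ℕ) (A X B : H →L[ℂ] H) :
    kf k (A * X * B) ≤ ‖A‖ * kf k X * ‖B‖ := by
  rcases eq_or_ne A 0 with rfl | hA
  · simp [kf_zero]
  rcases eq_or_ne B 0 with rfl | hB
  · simp [kf_zero]
  have hA' : 0 < ‖A‖ := norm_pos_iff.mpr hA
  have hB' : 0 < ‖B‖ := norm_pos_iff.mpr hB
  have h1 : ‖((‖A‖⁻¹ : ℝ) : ℂ) • A‖ ≤ 1 := by
    rw [norm_smul]; simp [hA'.ne']
  have h2 : ‖((‖B‖⁻¹ : ℝ) : ℂ) • B‖ ≤ 1 := by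
    rw [norm_smul]; simp [hB'.ne']
  have h := kf_mul_aux k h1 h2 X
  have h3 : (((‖A‖⁻¹ : ℝ) : ℂ) • A) * X * (((‖B‖⁻¹ : ℝ) : ℂ) • B)
      = (((‖A‖⁻¹ * ‖B‖⁻¹ : ℝ) : ℂ)) • (A * X * B) := by
    rw [smul_mul_assoc, smul_mul_assoc, mul_smul_comm, smul_smul]
    push_cast; rfl
  rw [h3, kf_smul] at h
  have h4 : ‖((‖A‖⁻¹ * ‖B‖⁻¹ : ℝ) : ℂ)‖ = ‖A‖⁻¹ * ‖B‖⁻¹ := by
    rw [Complex.norm_real, Real.norm_of_nonneg (by positivity)]
  rw [h4] at h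
  calc kf k (A * X * B) = ‖A‖ * (‖A‖⁻¹ * ‖B‖⁻¹ * kf k (A * X * B)) * ‖B‖ := by field_simp
    _ ≤ ‖A‖ * kf k X * ‖B‖ := by gcongr

lemma con_single {k : ℕ} (hk : 0 < k) {ξ : H} (hξ : ‖ξ‖ ≤ 1) :
    Con (fun i : Fin k => if i = ⟨0, hk⟩ then ξ else 0) := by
  intro c
  have h1 : ∑ i : Fin k, c i • (if i = (⟨0, hk⟩ : Fin k) then ξ else 0) = c ⟨0, hk⟩ • ξ := by
    rw [Finset.sum_eq_single ⟨0, hk⟩] <;> simp +contextual
  rw [h1, norm_smul]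
  have h2 : ‖c ⟨0, hk⟩‖ ^ 2 ≤ ∑ i, ‖c i‖ ^ 2 :=
    Finset.single_le_sum (f := fun i => ‖c i‖ ^ 2) (fun i _ => by positivity) (Finset.mem_univ _)
  refine le_trans ?_ h2
  have : ‖c ⟨0, hk⟩‖ * ‖ξ‖ ≤ ‖c ⟨0, hk⟩‖ := mul_le_of_le_one_right (norm_nonneg _) hξ
  gcongr

lemma inner_le_kf {k : ℕ} (hk : 0 < k) (X : H →L[ℂ] H) {ξ η : H} (hξ : ‖ξ‖ ≤ 1) (hη : ‖η‖ ≤ 1) :
    ‖⟪η, X ξ⟫_ℂ‖ ≤ kf k X := by
  have := le_kf X (con_single hk hξ) (con_single hk hη)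
  have h2 : ∑ i : Fin k, ⟪(if i = ⟨0, hk⟩ then η else 0), X (if i = ⟨0, hk⟩ then ξ else 0)⟫_ℂ
      = ⟪η, X ξ⟫_ℂ := by
    rw [Finset.sum_eq_single ⟨0, hk⟩]
    · simp
    · intro b _ hb
      simp [hb]
    · simp
  rwa [h2] at this

lemma opNorm_le_of_inner {X : H →L[ℂ] H} {r : ℝ} (hr : 0 ≤ r)
    (h : ∀ ξ η : H, ‖ξ‖ ≤ 1 → ‖η‖ ≤ 1 → ‖⟪η, X ξ⟫_ℂ‖ ≤ r) : ‖X‖ ≤ r := by
  refine ContinuousLinearMap.opNorm_le_bound _ hr fun x => ?_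
  rcases eq_or_ne x 0 with rfl | hx
  · simp
  rcases eq_or_ne (X x) 0 with h0 | h0
  · rw [h0]; simp; positivity
  have hx' : 0 < ‖x‖ := norm_pos_iff.mpr hx
  have h0' : 0 < ‖X x‖ := norm_pos_iff.mpr h0
  have key := h (((‖x‖⁻¹ : ℝ) : ℂ) • x) (((‖X x‖⁻¹ : ℝ) : ℂ) • X x)
    (by rw [norm_smul]; simp [hx'.ne']) (by rw [norm_smul]; simp [h0'.ne'])
  rw [map_smul, inner_smul_left, inner_smul_right, inner_self_eq_norm_sq_to_K] at key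
  simp only [Complex.conj_ofReal] at key
  rw [norm_mul, norm_mul] at key
  simp only [Complex.norm_real, norm_inv, norm_norm, norm_pow, Complex.coe_algebraMap] at key
  calc ‖X x‖ = (‖X x‖⁻¹ * (‖x‖⁻¹ * ‖X x‖ ^ 2)) * ‖x‖ := by field_simp
    _ ≤ r * ‖x‖ := by gcongr

lemma norm_le_kf {k : ℕ} (hk : 0 < k) (X : H →L[ℂ] H) : ‖X‖ ≤ kf k X :=
  opNorm_le_of_inner (kf_nonneg _ _) fun _ _ hξ hη => inner_le_kf hk X hξ hη

/-- `X` is the finite sum of the rank one operators `x ↦ ⟪a i, x⟫ b i`. -/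
lemma kf_le_of_sum {ι : Type*} (s : Finset ι) (a b : ι → H) (X : H →L[ℂ] H)
    (hX : ∀ x, X x = ∑ i ∈ s, ⟪a i, x⟫_ℂ • b i) (k : ℕ) :
    kf k X ≤ ∑ i ∈ s, ‖a i‖ * ‖b i‖ := by
  refine kf_le fun v w hv hw => ?_
  have h1 : ∑ j, ⟪w j, X (v j)⟫_ℂ = ∑ i ∈ s, ∑ j, ⟪a i, v j⟫_ℂ * ⟪w j, b i⟫_ℂ := by
    rw [Finset.sum_comm]
    refine Finset.sum_congr rfl fun j _ => ?_
    rw [hX, inner_sum]
    refine Finset.sum_congr rfl fun i _ => ?_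
    rw [inner_smul_right]
  rw [h1]
  refine (norm_sum_le _ _).trans (Finset.sum_le_sum fun i _ => ?_)
  have h2 : ‖∑ j, ⟪a i, v j⟫_ℂ * ⟪w j, b i⟫_ℂ‖ ≤ ∑ j, ‖⟪v j, a i⟫_ℂ‖ * ‖⟪w j, b i⟫_ℂ‖ := by
    refine (norm_sum_le _ _).trans (Finset.sum_le_sum fun j _ => ?_)
    rw [norm_mul, norm_inner_symm]
  refine h2.trans ?_
  have h3 := Finset.sum_mul_sq_le_sq_mul_sq Finset.univ (fun j => ‖⟪v j, a i⟫_ℂ‖)
    (fun j => ‖⟪w j, b i⟫_ℂ‖)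
  have h4 := hv.bessel (a i)
  have h5 := hw.bessel (b i)
  have h6 : (∑ j, ‖⟪v j, a i⟫_ℂ‖ * ‖⟪w j, b i⟫_ℂ‖) ^ 2 ≤ (‖a i‖ * ‖b i‖) ^ 2 := by
    refine h3.trans ?_
    rw [mul_pow]
    gcongr
  exact le_of_sq_le_sq h6 (by positivity)

/-- finite-rank operators -/
def FinRank (X : H →L[ℂ] H) : Prop :=
  FiniteDimensional ℂ (LinearMap.range (X : H →ₗ[ℂ] H))

lemma FinRank.exists_sum {X : H →L[ℂ] H} (hX : FinRank X) :
    ∃ (n : ℕ) (a b : Fin n → H), (∀ i, ‖b i‖ ≤ 1) ∧ ∀ x, X x = ∑ i, ⟪a i, x⟫_ℂ • b i := by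
  have : FiniteDimensional ℂ (LinearMap.range (X : H →ₗ[ℂ] H)) := hX
  let e := stdOrthonormalBasis ℂ (LinearMap.range (X : H →ₗ[ℂ] H))
  refine ⟨_, fun i => (ContinuousLinearMap.adjoint X) (e i : H), fun i => (e i : H), ?_, ?_⟩
  · intro i
    have := e.orthonormal.1 i
    rw [← this]; rfl
  · intro x
    have h := e.sum_repr ⟨X x, LinearMap.mem_range.mpr ⟨x, rfl⟩⟩
    have h2 := congrArg (Submodule.subtype _) h
    simp only [map_sum, map_smul, Submodule.subtype_apply] at h2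
    rw [← h2]
    refine Finset.sum_congr rfl fun i _ => ?_
    rw [ContinuousLinearMap.adjoint_inner_left, OrthonormalBasis.repr_apply_apply]
    rfl

lemma finRank_of_sum {ι : Type*} (s : Finset ι) (a b : ι → H) (X : H →L[ℂ] H)
    (hX : ∀ x, X x = ∑ i ∈ s, ⟪a i, x⟫_ℂ • b i) : FinRank X := by
  classical
  have h : LinearMap.range (X : H →ₗ[ℂ] H) ≤ Submodule.span ℂ ((s.image b : Finset H) : Set H) := by
    rintro _ ⟨x, rfl⟩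
    change X x ∈ _
    rw [hX]
    refine Submodule.sum_mem _ fun i hi => Submodule.smul_mem _ _ (Submodule.subset_span ?_)
    simpa using ⟨i, hi, rfl⟩
  exact Submodule.finiteDimensional_of_le h

lemma FinRank.add {X Y : H →L[ℂ] H} (hX : FinRank X) (hY : FinRank Y) : FinRank (X + Y) := by
  have : FiniteDimensional ℂ (LinearMap.range (X : H →ₗ[ℂ] H)) := hX
  have : FiniteDimensional ℂ (LinearMap.range (Y : H →ₗ[ℂ] H)) := hY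
  have h : LinearMap.range ((X + Y : H →L[ℂ] H) : H →ₗ[ℂ] H) ≤
      LinearMap.range (X : H →ₗ[ℂ] H) ⊔ LinearMap.range (Y : H →ₗ[ℂ] H) := by
    rintro _ ⟨x, rfl⟩
    exact Submodule.add_mem_sup ⟨x, rfl⟩ ⟨x, rfl⟩
  exact Submodule.finiteDimensional_of_le h

lemma FinRank.mul {X : H →L[ℂ] H} (hX : FinRank X) (A B : H →L[ℂ] H) : FinRank (A * X * B) := by
  have : FiniteDimensional ℂ (LinearMap.range (X : H →ₗ[ℂ] H)) := hX
  have h : LinearMap.range ((A * X * B : H →L[ℂ] H) : H →ₗ[ℂ] H) ≤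
      (LinearMap.range (X : H →ₗ[ℂ] H)).map (A : H →ₗ[ℂ] H) := by
    rintro _ ⟨x, rfl⟩
    exact ⟨X (B x), ⟨B x, rfl⟩, rfl⟩
  exact Submodule.finiteDimensional_of_le h

lemma FinRank.smul {X : H →L[ℂ] H} (hX : FinRank X) (c : ℂ) : FinRank (c • X) := by
  have := hX.mul (c • 1) 1
  simpa using this

lemma finRank_zero : FinRank (0 : H →L[ℂ] H) :=
  finRank_of_sum (∅ : Finset ℕ) (fun _ => 0) (fun _ => 0) _ (by simp)

lemma kf_star (k : ℕ) (X : H →L[ℂ] H) : kf k (star X) = kf k X := by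
  have key : ∀ Y : H →L[ℂ] H, kf k (star Y) ≤ kf k Y := by
    intro Y
    refine kf_le fun v w hv hw => ?_
    have h1 : ∑ i, ⟪w i, (star Y) (v i)⟫_ℂ = star (∑ i, ⟪v i, Y (w i)⟫_ℂ) := by
      rw [star_sum]
      refine Finset.sum_congr rfl fun i _ => ?_
      rw [ContinuousLinearMap.star_eq_adjoint, ContinuousLinearMap.adjoint_inner_right]
      simp
    rw [h1, norm_star]
    exact le_kf Y hw hv
  refine le_antisymm (key X) ?_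
  have := key (star X)
  rwa [star_star] at this

end Pool.Agent.H516R3.Sat
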