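import Mathlib

set_option autoImplicit false
set_option linter.all false

open scoped InnerProductSpace
open Filter Topology

noncomputable section

namespace Pool.Agent.H516R3.Sat

/-- `ℓ²(α)` -/
abbrev L2 (α : Type) : Type := lp (fun _ : α => ℂ) 2

variable {α : Type}

lemma two_toReal : (2 : ENNReal).toReal = 2 := by norm_num

lemma summable_sq (ξ : L2 α) : Summable fun a => ‖ξ a‖ ^ 2 := by
  have h := (memℓp_gen_iff (p := 2) (by norm_num) (f := fun a => ξ a)).mp (lp.memℓp ξ)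
  simpa using h

lemma memℓp_of_summable_sq {f : α → ℂ} (h : Summable fun a => ‖f a‖ ^ 2) :
    Memℓp (E := fun _ : α => ℂ) f 2 := by
  refine memℓp_gen ?_
  simpa using h

lemma norm_sq_eq (ξ : L2 α) : ‖ξ‖ ^ 2 = ∑' a, ‖ξ a‖ ^ 2 := by
  have h := lp.norm_rpow_eq_tsum (p := 2) (by norm_num) ξ
  simpa using h

lemma norm_le_of_sq {ξ : L2 α} {r : ℝ} (hr : 0 ≤ r) (h : ∑' a, ‖ξ a‖ ^ 2 ≤ r ^ 2) : ‖ξ‖ ≤ r := by
  rw [← norm_sq_eq] at h
  exact le_of_sq_le_sq h hr

/-- multiplication by a function of modulus at most one -/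
def mulOp (φ : α → ℂ) (hφ : ∀ a, ‖φ a‖ ≤ 1) : L2 α →L[ℂ] L2 α :=
  LinearMap.mkContinuous
    { toFun := fun ξ => ⟨fun a => φ a * ξ a, memℓp_of_summable_sq (by
        refine Summable.of_nonneg_of_le (fun a => by positivity) (fun a => ?_) (summable_sq ξ)
        rw [norm_mul, mul_pow]
        have := hφ a
        calc ‖φ a‖ ^ 2 * ‖ξ a‖ ^ 2 ≤ 1 ^ 2 * ‖ξ a‖ ^ 2 := by gcongr
          _ = _ := by ring)⟩
      map_add' := fun ξ η => by
        ext a
        change φ a * (ξ a + η a) = φ a * ξ a + φ a * η a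
        ring
      map_smul' := fun c ξ => by
        ext a
        change φ a * (c * ξ a) = c * (φ a * ξ a)
        ring } 1 (fun ξ => by
        rw [one_mul]
        refine norm_le_of_sq (norm_nonneg _) ?_
        rw [norm_sq_eq]
        refine Summable.tsum_le_tsum (fun a => ?_) ?_ (summable_sq ξ)
        · change ‖φ a * ξ a‖ ^ 2 ≤ _
          rw [norm_mul, mul_pow]
          have := hφ a
          calc ‖φ a‖ ^ 2 * ‖ξ a‖ ^ 2 ≤ 1 ^ 2 * ‖ξ a‖ ^ 2 := by gcongr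
            _ = _ := by ring
        · refine Summable.of_nonneg_of_le (fun a => by positivity) (fun a => ?_) (summable_sq ξ)
          change ‖φ a * ξ a‖ ^ 2 ≤ _
          rw [norm_mul, mul_pow]
          have := hφ a
          calc ‖φ a‖ ^ 2 * ‖ξ a‖ ^ 2 ≤ 1 ^ 2 * ‖ξ a‖ ^ 2 := by gcongr
            _ = _ := by ring)

@[simp] lemma mulOp_apply (φ : α → ℂ) (hφ : ∀ a, ‖φ a‖ ≤ 1) (ξ : L2 α) (a : α) :
    mulOp φ hφ ξ a = φ a * ξ a := rfl

lemma mulOp_norm_le (φ : α → ℂ) (hφ : ∀ a, ‖φ a‖ ≤ 1) : ‖mulOp φ hφ‖ ≤ 1 :=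
  LinearMap.mkContinuous_norm_le _ zero_le_one _

/-- push forward along an injection -/
def push (g : α → α) (hg : Function.Injective g) : L2 α →L[ℂ] L2 α :=
  LinearMap.mkContinuous
    { toFun := fun ξ => ⟨Function.extend g ξ 0, memℓp_of_summable_sq (by
        have h0 : ∀ b, b ∉ Set.range g → ‖Function.extend g ξ (0 : α → ℂ) b‖ ^ 2 = 0 := by
          intro b hb
          rw [Function.extend_apply' _ _ _ (by simpa using hb)]
          simp
        rw [← hg.summable_iff h0]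
        refine (summable_sq ξ).congr fun a => ?_
        simp [hg.extend_apply])⟩
      map_add' := fun ξ η => by
        ext b
        change Function.extend g (⇑(ξ + η)) 0 b = Function.extend g ξ 0 b + Function.extend g η 0 b
        by_cases hb : ∃ a, g a = b
        · obtain ⟨a, rfl⟩ := hb
          rw [hg.extend_apply, hg.extend_apply, hg.extend_apply]
          rfl
        · rw [Function.extend_apply' _ _ _ hb, Function.extend_apply' _ _ _ hb,
            Function.extend_apply' _ _ _ hb]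
          simp
      map_smul' := fun c ξ => by
        ext b
        change Function.extend g (⇑(c • ξ)) 0 b = c * Function.extend g ξ 0 b
        by_cases hb : ∃ a, g a = b
        · obtain ⟨a, rfl⟩ := hb
          rw [hg.extend_apply, hg.extend_apply]
          rfl
        · rw [Function.extend_apply' _ _ _ hb, Function.extend_apply' _ _ _ hb]
          simp } 1 (fun ξ => by
        rw [one_mul]
        refine norm_le_of_sq (norm_nonneg _) (le_of_eq ?_)
        rw [norm_sq_eq]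
        have h0 : ∀ b, b ∉ Set.range g → ‖Function.extend g ξ (0 : α → ℂ) b‖ ^ 2 = 0 := by
          intro b hb
          rw [Function.extend_apply' _ _ _ (by simpa using hb)]
          simp
        have h1 : Function.support (fun b => ‖Function.extend g ξ (0 : α → ℂ) b‖ ^ 2) ⊆ Set.range g := by
          intro b hb
          by_contra hcon
          exact hb (h0 b hcon)
        have h2 := hg.tsum_eq h1
        change ∑' b, ‖Function.extend g ξ (0 : α → ℂ) b‖ ^ 2 = _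
        rw [← h2]
        refine tsum_congr fun a => ?_
        rw [hg.extend_apply])

lemma push_apply (g : α → α) (hg : Function.Injective g) (ξ : L2 α) (a : α) :
    push g hg ξ (g a) = ξ a := hg.extend_apply _ _ _

lemma push_apply_not (g : α → α) (hg : Function.Injective g) (ξ : L2 α) (b : α)
    (hb : ¬ ∃ a, g a = b) : push g hg ξ b = 0 := Function.extend_apply' _ _ _ hb

lemma inner_push (g : α → α) (hg : Function.Injective g) (ξ η : L2 α) :
    ⟪push g hg ξ, push g hg η⟫_ℂ = ⟪ξ, η⟫_ℂ := by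
  rw [lp.inner_eq_tsum, lp.inner_eq_tsum]
  have h1 : Function.support (fun b => ⟪push g hg ξ b, push g hg η b⟫_ℂ) ⊆ Set.range g := by
    intro b hb
    by_contra hcon
    refine hb ?_
    change ⟪push g hg ξ b, push g hg η b⟫_ℂ = 0
    rw [push_apply_not g hg ξ b (by simpa using hcon)]
    simp
  rw [← hg.tsum_eq h1]
  refine tsum_congr fun a => ?_
  rw [push_apply, push_apply]

lemma inner_push_disjoint (g g' : α → α) (hg : Function.Injective g) (hg' : Function.Injective g')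
    (h : ∀ a b, g a ≠ g' b) (ξ η : L2 α) :
    ⟪push g hg ξ, push g' hg' η⟫_ℂ = 0 := by
  rw [lp.inner_eq_tsum]
  have : ∀ b, ⟪push g hg ξ b, push g' hg' η b⟫_ℂ = 0 := by
    intro b
    by_cases hb : ∃ a, g a = b
    · obtain ⟨a, rfl⟩ := hb
      rw [push_apply_not g' hg' η (g a) (by rintro ⟨c, hc⟩; exact h a c hc.symm)]
      simp
    · rw [push_apply_not g hg ξ b hb]
      simp
  exact (tsum_congr this).trans tsum_zero

lemma mulOp_push (φ ψ : α → ℂ) (hφ : ∀ a, ‖φ a‖ ≤ 1) (hψ : ∀ a, ‖ψ a‖ ≤ 1) (g : α → α)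
    (hg : Function.Injective g) (h : ∀ a, φ (g a) = ψ a) :
    mulOp φ hφ * push g hg = push g hg * mulOp ψ hψ := by
  ext ξ b
  change φ b * push g hg ξ b = push g hg (mulOp ψ hψ ξ) b
  by_cases hb : ∃ a, g a = b
  · obtain ⟨a, rfl⟩ := hb
    rw [push_apply, push_apply, h]
    rfl
  · rw [push_apply_not g hg _ b hb, push_apply_not g hg _ b hb, mul_zero]

lemma mulOp_mul (φ ψ χ : α → ℂ) (hφ : ∀ a, ‖φ a‖ ≤ 1) (hψ : ∀ a, ‖ψ a‖ ≤ 1)
    (hχ : ∀ a, ‖χ a‖ ≤ 1) (h : ∀ a, φ a * ψ a = χ a) :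
    mulOp φ hφ * mulOp ψ hψ = mulOp χ hχ := by
  ext ξ a
  change φ a * (ψ a * ξ a) = χ a * ξ a
  rw [← h]; ring

lemma inner_mulOp (φ : α → ℂ) (hφ : ∀ a, ‖φ a‖ ≤ 1) (ξ η : L2 α) :
    ⟪ξ, mulOp φ hφ η⟫_ℂ = ∑' a, φ a * ⟪ξ a, η a⟫_ℂ := by
  rw [lp.inner_eq_tsum]
  refine tsum_congr fun a => ?_
  rw [mulOp_apply, ← smul_eq_mul, inner_smul_right]

lemma mulOp_star (φ : α → ℂ) (hφ : ∀ a, ‖φ a‖ ≤ 1) (hr : ∀ a, (starRingEnd ℂ) (φ a) = φ a) :
    star (mulOp φ hφ) = mulOp φ hφ := by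
  rw [ContinuousLinearMap.star_eq_adjoint]
  symm
  rw [ContinuousLinearMap.eq_adjoint_iff]
  intro ξ η
  rw [lp.inner_eq_tsum, lp.inner_eq_tsum]
  refine tsum_congr fun a => ?_
  rw [mulOp_apply, mulOp_apply, ← smul_eq_mul, ← smul_eq_mul, inner_smul_left, inner_smul_right, hr]

lemma mulOp_tendsto (φ : ℕ → α → ℂ) (hφ : ∀ m a, ‖φ m a‖ ≤ 1)
    (h : ∀ a, Tendsto (fun m => φ m a) atTop (𝓝 1)) (ξ : L2 α) :
    Tendsto (fun m => mulOp (φ m) (hφ m) ξ) atTop (𝓝 ξ) := by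
  rw [tendsto_iff_norm_sub_tendsto_zero]
  have h1 : Tendsto (fun m => ‖mulOp (φ m) (hφ m) ξ - ξ‖ ^ 2) atTop (𝓝 0) := by
    have h2 : ∀ m, ‖mulOp (φ m) (hφ m) ξ - ξ‖ ^ 2 = ∑' a, ‖φ m a * ξ a - ξ a‖ ^ 2 := by
      intro m
      rw [norm_sq_eq]
      rfl
    simp only [h2]
    have h3 : (0 : ℝ) = ∑' a : α, (0 : ℝ) := by simp
    rw [h3]
    refine tendsto_tsum_of_dominated_convergence (bound := fun a => 4 * ‖ξ a‖ ^ 2)
      ((summable_sq ξ).mul_left 4) (fun a => ?_) (Eventually.of_forall fun m a => ?_)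
    · have h4 : Tendsto (fun m => φ m a * ξ a - ξ a) atTop (𝓝 (1 * ξ a - ξ a)) :=
        ((h a).mul_const _).sub_const _
      rw [one_mul, sub_self] at h4
      have h5 := h4.norm.pow 2
      simpa using h5
    · rw [Real.norm_of_nonneg (by positivity)]
      have h6 : ‖φ m a * ξ a - ξ a‖ ≤ 2 * ‖ξ a‖ := by
        refine (norm_sub_le _ _).trans ?_
        rw [norm_mul]
        have := hφ m a
        nlinarith [norm_nonneg (ξ a)]
      calc ‖φ m a * ξ a - ξ a‖ ^ 2 ≤ (2 * ‖ξ a‖) ^ 2 := by gcongr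
        _ = _ := by ring
  have h7 := h1.sqrt
  simpa [Real.sqrt_sq] using h7

lemma mulOp_nonneg (φ : α → ℝ) (h0 : ∀ a, 0 ≤ φ a) (h1 : ∀ a, ‖(φ a : ℂ)‖ ≤ 1) :
    0 ≤ mulOp (fun a => (φ a : ℂ)) h1 := by
  rw [ContinuousLinearMap.nonneg_iff_isPositive]
  rw [ContinuousLinearMap.isPositive_iff_complex]
  intro ξ
  have h2 : ⟪mulOp (fun a => (φ a : ℂ)) h1 ξ, ξ⟫_ℂ = ((∑' a, φ a * ‖ξ a‖ ^ 2 : ℝ) : ℂ) := by
    rw [lp.inner_eq_tsum]
    push_cast
    refine tsum_congr fun a => ?_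
    rw [mulOp_apply, ← smul_eq_mul, inner_smul_left, Complex.conj_ofReal,
      inner_self_eq_norm_sq_to_K]
    simp
  rw [h2]
  constructor
  · simp
  · change 0 ≤ ((∑' a, φ a * ‖ξ a‖ ^ 2 : ℝ) : ℂ).re
    rw [Complex.ofReal_re]
    exact tsum_nonneg fun a => mul_nonneg (h0 a) (by positivity)

lemma mulOp_le (φ ψ : α → ℝ) (hφ : ∀ a, ‖(φ a : ℂ)‖ ≤ 1) (hψ : ∀ a, ‖(ψ a : ℂ)‖ ≤ 1)
    (h : ∀ a, φ a ≤ ψ a) (hd : ∀ a, ψ a - φ a ≤ 1) :
    mulOp (fun a => (φ a : ℂ)) hφ ≤ mulOp (fun a => (ψ a : ℂ)) hψ := by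
  have h3 : ∀ a, ‖((ψ a - φ a : ℝ) : ℂ)‖ ≤ 1 := by
    intro a
    rw [Complex.norm_real, Real.norm_of_nonneg (sub_nonneg.mpr (h a))]
    exact hd a
  have h4 : mulOp (fun a => (ψ a : ℂ)) hψ - mulOp (fun a => (φ a : ℂ)) hφ
      = mulOp (fun a => ((ψ a - φ a : ℝ) : ℂ)) h3 := by
    ext ξ a
    change (ψ a : ℂ) * ξ a - (φ a : ℂ) * ξ a = ((ψ a - φ a : ℝ) : ℂ) * ξ a
    push_cast; ring
  rw [← sub_nonneg, h4]
  exact mulOp_nonneg _ (fun a => sub_nonneg.mpr (h a)) h3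

end Pool.Agent.H516R3.Sat
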