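import Pool.Agent.H516R3.Sat.Calkin
import Pool.Agent.H516R3.Sat.L2

set_option autoImplicit false
set_option linter.all false

open scoped InnerProductSpace
open Filter Topology

noncomputable section

namespace Pool.Agent.H516R3.Sat

/-- the index set: words in two letters times a multiplicity index -/
abbrev Ix : Type := List Bool × ℕ

/-- the Hilbert space -/
abbrev HH : Type := L2 Ix

/-- the maps on the index set -/
def gS (i : Bool) (p : Ix) : Ix := (i :: p.1, p.2)

lemma gS_inj (i : Bool) : Function.Injective (gS i) := by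
  rintro ⟨w, n⟩ ⟨w', n'⟩ h
  simp [gS] at h
  simp [h]

/-- the isometries `δ_(w,n) ↦ δ_(iw,n)` -/
def SS (i : Bool) : HH →L[ℂ] HH := push (gS i) (gS_inj i)

lemma orthIso_SS : OrthIso SS := by
  intro i j ξ η
  by_cases h : i = j
  · subst h
    rw [if_pos rfl]
    exact inner_push _ _ ξ η
  · rw [if_neg h]
    refine inner_push_disjoint _ _ _ _ ?_ ξ η
    rintro ⟨w, n⟩ ⟨w', n'⟩ h'
    simp [gS] at h'
    exact h h'.1.1

/-- the cut-off function -/
def cutF (m : ℕ) (p : Ix) : ℂ := if p.2 < m then 1 else 0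

lemma cutF_le (m : ℕ) (p : Ix) : ‖cutF m p‖ ≤ 1 := by
  unfold cutF; split_ifs <;> simp

/-- projection onto the first `m` copies -/
def PP (m : ℕ) : HH →L[ℂ] HH := mulOp (cutF m) (cutF_le m)

/-- indicator of the `k`-th copy -/
def copyF (k : ℕ) (p : Ix) : ℂ := if p.2 = k then 1 else 0

lemma copyF_le (k : ℕ) (p : Ix) : ‖copyF k p‖ ≤ 1 := by
  unfold copyF; split_ifs <;> simp

/-- projection onto the `k`-th copy -/
def ee (k : ℕ) : HH →L[ℂ] HH := mulOp (copyF k) (copyF_le k)

lemma cut_PP : Cut SS PP where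
  star_eq := fun m => mulOp_star _ _ fun a => by unfold cutF; split_ifs <;> simp
  idem := fun m => mulOp_mul _ _ _ _ _ _ fun a => by unfold cutF; split_ifs <;> simp
  comm := fun m i => mulOp_push _ _ _ _ _ _ fun a => rfl
  tendsto := fun ξ => mulOp_tendsto _ _ (fun a => by
    refine tendsto_atTop_of_eventually_const (i₀ := a.2 + 1) fun m hm => ?_
    unfold cutF
    rw [if_pos (by omega)]) ξ

lemma PP_succ (m : ℕ) : PP (m + 1) = PP m + ee m := by
  ext ξ a
  change cutF (m + 1) a * ξ a = cutF m a * ξ a + copyF m a * ξ a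
  rw [← add_mul]
  congr 1
  unfold cutF copyF
  by_cases h : a.2 < m
  · rw [if_pos (by omega), if_pos h, if_neg (by omega)]; simp
  · by_cases h' : a.2 = m
    · rw [if_pos (by omega), if_neg h, if_pos h']; simp
    · rw [if_neg (by omega), if_neg h, if_neg h']; simp

lemma PP_zero : PP 0 = 0 := by
  ext ξ a
  change cutF 0 a * ξ a = 0
  simp [cutF]

lemma PP_mul_ee {m k : ℕ} (h : k < m) : PP m * ee k = ee k :=
  mulOp_mul _ _ _ _ _ _ fun a => by
    unfold cutF copyF
    by_cases h' : a.2 = k
    · rw [if_pos (by omega), if_pos h']; simp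
    · rw [if_neg h']; simp

/-- the vectors `δ_(∅,n)` -/
def dd (n : ℕ) : HH := lp.single 2 ([], n) (1 : ℂ)

lemma norm_dd (n : ℕ) : ‖dd n‖ = 1 := by
  unfold dd
  rw [lp.norm_single (by norm_num)]
  simp

lemma inner_dd (a : HH) (n : ℕ) : ⟪a, dd n⟫_ℂ = (starRingEnd ℂ) (a ([], n)) := by
  unfold dd
  rw [lp.inner_single_right]
  simp

lemma weak_dd (a : HH) : Tendsto (fun n => ⟪a, dd n⟫_ℂ) atTop (𝓝 0) := by
  simp only [inner_dd]
  have h1 : Summable fun n : ℕ => ‖a ([], n)‖ ^ 2 := by
    have hinj : Function.Injective (fun n : ℕ => (([], n) : Ix)) := by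
      intro n m h; simpa using h
    exact (summable_sq a).comp_injective hinj
  have h2 := h1.tendsto_atTop_zero
  have h3 : Tendsto (fun n : ℕ => ‖a ([], n)‖) atTop (𝓝 0) := by
    have := h2.sqrt
    simpa [Real.sqrt_sq] using this
  rw [tendsto_zero_iff_norm_tendsto_zero]
  simpa using h3

lemma one_le_norm (m : ℕ) : 1 ≤ ‖toCalkin (1 - PP m)‖ := by
  refine le_norm_toCalkin norm_dd weak_dd ?_
  filter_upwards [eventually_ge_atTop m] with n hn
  have : (1 - PP m) (dd n) = dd n := by
    have h1 : PP m (dd n) = 0 := by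
      ext a
      change cutF m a * dd n a = 0
      unfold cutF dd
      by_cases h : a.2 < m
      · have h2 : a ≠ ([], n) := by
          rintro rfl
          simp at h; omega
        rw [lp.single_apply_ne _ _ _ h2]; simp
      · rw [if_neg h]; simp
    simp [h1]
  rw [this, norm_dd]

end Pool.Agent.H516R3.Sat
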