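import Pool.Agent.H516R3.Sat.Unit

set_option autoImplicit false
set_option linter.all false

open scoped InnerProductSpace
open Filter Topology

noncomputable section

namespace Pool.Agent.H516R3.Sat.Stmt

/-- The infinite-dimensional separable complex Hilbert space `ℓ²(List Bool × ℕ)`. -/
def Hil : Type := lp (fun _ : List Bool × ℕ => ℂ) 2

instance : NormedAddCommGroup Hil := by
  exact (inferInstance : NormedAddCommGroup (lp (fun _ : List Bool × ℕ => ℂ) 2))

instance : InnerProductSpace ℂ Hil := by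
  exact (inferInstance : InnerProductSpace ℂ (lp (fun _ : List Bool × ℕ => ℂ) 2))

instance : CompleteSpace Hil := by
  exact (inferInstance : CompleteSpace (lp (fun _ : List Bool × ℕ => ℂ) 2))

/-- The C*-algebra of bounded operators on `Hil`. -/
def B : Type := Hil →L[ℂ] Hil

instance : CStarAlgebra B := by exact (inferInstance : CStarAlgebra (Hil →L[ℂ] Hil))
instance : PartialOrder B := by exact (inferInstance : PartialOrder (Hil →L[ℂ] Hil))

/-- the underlying map of an operator -/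
def ap (T : B) : Hil → Hil := fun x => @DFunLike.coe (Hil →L[ℂ] Hil) Hil (fun _ => Hil) _ T x

/-- finite rank operators -/
def IsFiniteRank (T : B) : Prop :=
  ∃ V : Submodule ℂ Hil, FiniteDimensional ℂ V ∧ ∀ x, ap T x ∈ V

/-- compact operators -/
def IsCpt (T : B) : Prop := IsCompactOperator (ap T)

/-- `J` is closed under multiplication by bounded operators on both sides. -/
def IsIdeal (J : Submodule ℂ B) : Prop := ∀ A X C : B, X ∈ J → A * X * C ∈ J

/-- `ν` is a norm on `J`. -/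
def IsNormOn (J : Submodule ℂ B) (ν : B → ℝ) : Prop :=
  (∀ X ∈ J, 0 ≤ ν X ∧ (ν X = 0 → X = 0)) ∧ (∀ X ∈ J, ∀ Y ∈ J, ν (X + Y) ≤ ν X + ν Y) ∧
    ∀ (c : ℂ), ∀ X ∈ J, ν (c • X) = ‖c‖ * ν X

/-- the symmetry `|A X C| ≤ ‖A‖ |X| ‖C‖` of the norm -/
def IsSymmOn (J : Submodule ℂ B) (ν : B → ℝ) : Prop :=
  ∀ A X C : B, X ∈ J → ν (A * X * C) ≤ ‖A‖ * ν X * ‖C‖

/-- `J` is complete in the norm `ν`. -/
def IsCompleteOn (J : Submodule ℂ B) (ν : B → ℝ) : Prop :=
  ∀ u : ℕ → B, (∀ n, u n ∈ J) →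
    (∀ ε : ℝ, 0 < ε → ∃ N, ∀ m ≥ N, ∀ n ≥ N, ν (u m - u n) < ε) →
    ∃ X ∈ J, Tendsto (fun n => ν (u n - X)) atTop (𝓝 0)

/-- A normed ideal: a two-sided ideal `I` of `B(H)` with `R ⊆ I ⊆ K`, complete in a norm with
`|A X C| ≤ ‖A‖ |X| ‖C‖`. -/
structure NIdeal where
  /-- the underlying subspace -/
  carrier : Submodule ℂ B
  /-- the norm (relevant only on `carrier`) -/
  nrm : B → ℝ
  ideal : IsIdeal carrier
  finRank_mem : ∀ X : B, IsFiniteRank X → X ∈ carrier
  isCpt : ∀ X ∈ carrier, IsCpt X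
  isNorm : IsNormOn carrier nrm
  isSymm : IsSymmOn carrier nrm
  isComplete : IsCompleteOn carrier nrm

/-- the finite rank operators are dense in the ideal -/
def FiniteRankDense (I : NIdeal) : Prop :=
  ∀ X ∈ I.carrier, ∀ ε : ℝ, 0 < ε → ∃ F, IsFiniteRank F ∧ I.nrm (X - F) < ε

/-- normalisation: the norm of a rank one operator is its operator norm -/
def Normalised (I : NIdeal) : Prop :=
  ∀ (X : B) (a b : Hil), (∀ x, ap X x = (inner ℂ a x : ℂ) • b) → I.nrm X = ‖X‖

/-- `A m ↑ 1`: finite rank operators `0 ≤ A m ≤ 1`, increasing and strongly convergent to `1`. -/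
def IncreasesToOne (A : ℕ → B) : Prop :=
  (∀ m, IsFiniteRank (A m) ∧ 0 ≤ A m ∧ A m ≤ 1) ∧ Monotone A ∧
    ∀ x, Tendsto (fun m => ap (A m) x) atTop (𝓝 x)

/-- `max_j |[A, T_j]|_I` -/
def maxComm (I : NIdeal) {n : ℕ} (τ : Fin n → B) (A : B) : ℝ := ⨆ j, I.nrm (A * τ j - τ j * A)

/-- The number `k_I(τ) ∈ [0, ∞]`. -/
def kI (I : NIdeal) {n : ℕ} (τ : Fin n → B) : ENNReal :=
  sInf {C | ∃ A, IncreasesToOne A ∧ Tendsto (fun m => ENNReal.ofReal (maxComm I τ (A m))) atTop (𝓝 C)}

/-- `E(τ; I)`: the operators commuting with the tuple modulo the ideal. -/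
def commutantMod (I : NIdeal) {n : ℕ} (τ : Fin n → B) : Set B :=
  {X | ∀ j, X * τ j - τ j * X ∈ I.carrier}

lemma isCpt_add {S T : B} (hS : IsCpt S) (hT : IsCpt T) : IsCpt (S + T) :=
  IsCompactOperator.add hS hT

lemma isCpt_zero : IsCpt 0 := isCompactOperator_zero (M₁ := Hil) (M₂ := Hil)

lemma isCpt_mul_left (S : B) {T : B} (hT : IsCpt T) : IsCpt (S * T) :=
  IsCompactOperator.clm_comp hT (show Hil →L[ℂ] Hil from S)

lemma isCpt_mul_right {S : B} (T : B) (hS : IsCpt S) : IsCpt (S * T) :=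
  IsCompactOperator.comp_clm (M₂ := Hil) (M₃ := Hil) hS (show Hil →L[ℂ] Hil from T)

/-- The ideal of compact operators. -/
def cptIdeal : Ideal B where
  carrier := {T | IsCpt T}
  add_mem' := isCpt_add
  zero_mem' := isCpt_zero
  smul_mem' := fun c T hT => isCpt_mul_left c hT

instance : cptIdeal.IsTwoSided where
  mul_mem_of_left := fun T hS => isCpt_mul_right T hS

lemma mem_cptIdeal (T : B) : T ∈ cptIdeal ↔ IsCpt T := Iff.rfl

/-- The Calkin algebra `B(H)/K(H)`. -/
def Calk : Type := B ⧸ cptIdeal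

instance : Ring Calk := by exact (inferInstance : Ring (B ⧸ cptIdeal))
instance : Algebra ℂ Calk := by exact (inferInstance : Algebra ℂ (B ⧸ cptIdeal))

/-- the quotient map `p` -/
def proj : B →+* Calk := Ideal.Quotient.mk cptIdeal

lemma proj_surjective : Function.Surjective proj := Ideal.Quotient.mk_surjective

/-- the quotient norm `‖x‖ = inf {‖T‖ : p(T) = x}` -/
instance : Norm Calk := ⟨fun x => sInf {r | ∃ T : B, proj T = x ∧ r = ‖T‖}⟩

/-- the involution of the Calkin algebra: `p(T)^* = p(T^*)`, see `proj_star`. -/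
instance : Star Calk := ⟨fun x => proj (star (Function.surjInv proj_surjective x))⟩

lemma proj_eq_iff (S T : B) : proj S = proj T ↔ IsCpt (S - T) :=
  Ideal.Quotient.mk_eq_mk_iff_sub_mem S T

lemma proj_star (T : B) : proj (star T) = star (proj T) := by
  have h1 : proj (Function.surjInv proj_surjective (proj T)) = proj T :=
    Function.surjInv_eq proj_surjective (proj T)
  have h2 : IsCpt (Function.surjInv proj_surjective (proj T) - T) := (proj_eq_iff _ _).mp h1
  have h3 : IsCpt (star (Function.surjInv proj_surjective (proj T) - T)) :=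
    isCompactOperator_star (H := Hil) h2
  rw [star_sub] at h3
  exact ((proj_eq_iff _ _).mpr h3).symm

/-- `S` is a unital *-subalgebra of the Calkin algebra. -/
def IsStarSubalgebra (S : Set Calk) : Prop :=
  1 ∈ S ∧ (∀ x ∈ S, ∀ y ∈ S, x + y ∈ S ∧ x * y ∈ S) ∧ ∀ x ∈ S, star x ∈ S ∧ ∀ c : ℂ, c • x ∈ S

/-- the monomial `a * x_i * b` or `a * x_i^* * b`. -/
structure Mono (A : Type) where
  /-- left coefficient -/
  left : A
  /-- index of the variable -/
  idx : ℕ
  /-- whether the variable is starred -/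
  starred : Bool
  /-- right coefficient -/
  right : A

/-- a *-polynomial of degree at most one: a constant plus a finite sum of monomials. -/
structure DegOne (A : Type) where
  /-- constant term -/
  const : A
  /-- the degree one monomials -/
  terms : List (Mono A)

/-- evaluation of a *-polynomial of degree at most one -/
def DegOne.eval {A : Type} [Ring A] [Star A] (P : DegOne A) (x : ℕ → A) : A :=
  P.const + (P.terms.map fun t => t.left * (if t.starred then star (x t.idx) else x t.idx) *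
    t.right).sum

/-- all coefficients of `P` lie in `A`. -/
def DegOne.CoeffsIn {C : Type} (P : DegOne C) (A : Set C) : Prop :=
  P.const ∈ A ∧ ∀ t ∈ P.terms, t.left ∈ A ∧ t.right ∈ A

/-- Countable degree-1 saturation (Farah and Hart) of a *-subalgebra `A` of the Calkin algebra. -/
def CountablyDegreeOneSaturated (A : Set Calk) : Prop :=
  ∀ (P : ℕ → DegOne Calk) (K : ℕ → Set ℝ), (∀ k, (P k).CoeffsIn A) → (∀ k, IsCompact (K k)) →
    (∀ N : ℕ, 0 < N → ∃ b : ℕ → Calk, (∀ i, b i ∈ A ∧ ‖b i‖ ≤ 1) ∧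
      ∀ k ≤ N, ∃ r ∈ K k, |‖(P k).eval b‖ - r| < 1 / (N : ℝ)) →
    ∃ b : ℕ → Calk, (∀ i, b i ∈ A ∧ ‖b i‖ ≤ 1) ∧ ∀ k, ‖(P k).eval b‖ ∈ K k

end Pool.Agent.H516R3.Sat.Stmt
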