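import Pool.Agent.H516R3.Sat.Model

set_option autoImplicit false
set_option linter.all false

open scoped InnerProductSpace
open Filter Topology

noncomputable section

namespace Pool.Agent.H516R3.Sat

/-- the weights of the approximate unit -/
def wt (m : ℕ) (p : Ix) : ℝ :=
  if p.2 < m + 1 then max 0 (1 - (p.1.length : ℝ) / (m + 1)) else 0

lemma wt_nonneg (m : ℕ) (p : Ix) : 0 ≤ wt m p := by
  unfold wt; split_ifs
  · exact le_max_left _ _
  · exact le_rfl

lemma wt_le_one (m : ℕ) (p : Ix) : wt m p ≤ 1 := by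
  unfold wt; split_ifs
  · refine max_le zero_le_one ?_
    have : (0 : ℝ) ≤ (p.1.length : ℝ) / (m + 1) := by positivity
    linarith
  · exact zero_le_one

lemma wt_norm (m : ℕ) (p : Ix) : ‖(wt m p : ℂ)‖ ≤ 1 := by
  rw [Complex.norm_real, Real.norm_of_nonneg (wt_nonneg m p)]
  exact wt_le_one m p

/-- the approximate unit -/
def AA (m : ℕ) : HH →L[ℂ] HH := mulOp (fun p => (wt m p : ℂ)) (wt_norm m)

lemma AA_nonneg (m : ℕ) : 0 ≤ AA m := mulOp_nonneg _ (wt_nonneg m) (wt_norm m)

lemma AA_le_one (m : ℕ) : AA m ≤ 1 := by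
  have h : (1 : HH →L[ℂ] HH) = mulOp (fun _ => ((1 : ℝ) : ℂ)) (by simp) := by
    ext ξ a
    change ξ a = ((1 : ℝ) : ℂ) * ξ a
    simp
  rw [h]
  exact mulOp_le _ _ _ _ (wt_le_one m) (fun a => by linarith [wt_nonneg m a])

lemma wt_mono {m m' : ℕ} (h : m ≤ m') (p : Ix) : wt m p ≤ wt m' p := by
  unfold wt
  by_cases h1 : p.2 < m + 1
  · rw [if_pos h1, if_pos (by omega)]
    refine max_le_max le_rfl ?_
    have h2 : ((m : ℝ) + 1) ≤ m' + 1 := by exact_mod_cast Nat.succ_le_succ h
    have : (p.1.length : ℝ) / (m' + 1) ≤ (p.1.length : ℝ) / (m + 1) := by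
      gcongr
    linarith
  · rw [if_neg h1]
    split_ifs
    · exact le_max_left _ _
    · exact le_rfl

lemma AA_mono : Monotone AA := fun m m' h =>
  mulOp_le _ _ _ _ (wt_mono h) (fun a => by linarith [wt_nonneg m a, wt_le_one m' a])

lemma AA_tendsto (ξ : HH) : Tendsto (fun m => AA m ξ) atTop (𝓝 ξ) := by
  refine mulOp_tendsto _ _ (fun a => ?_) ξ
  have h1 : Tendsto (fun m : ℕ => wt m a) atTop (𝓝 1) := by
    have h2 : Tendsto (fun m : ℕ => 1 - (a.1.length : ℝ) / (m + 1)) atTop (𝓝 (1 - 0)) := by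
      refine tendsto_const_nhds.sub ?_
      exact tendsto_const_nhds.div_atTop
        (tendsto_atTop_add_const_right _ _ tendsto_natCast_atTop_atTop)
    rw [sub_zero] at h2
    refine h2.congr' ?_
    filter_upwards [eventually_ge_atTop (a.2 + a.1.length)] with m hm
    unfold wt
    rw [if_pos (by omega), max_eq_right]
    have : (a.1.length : ℝ) ≤ m + 1 := by
      have : a.1.length ≤ m + 1 := by omega
      exact_mod_cast this
    rw [sub_nonneg, div_le_one (by positivity)]
    exact this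
  have h3 := (Complex.continuous_ofReal.tendsto 1).comp h1
  rw [Complex.ofReal_one] at h3
  exact h3

/-- the finite set of indices of words of length `< m` and multiplicity index `< m` -/
def supp (m : ℕ) : Set Ix := {p | p.1.length < m ∧ p.2 < m}

lemma supp_finite (m : ℕ) : (supp m).Finite := by
  have h1 : ({w : List Bool | w.length < m}).Finite := List.finite_length_lt Bool m
  have h2 : ({n : ℕ | n < m}).Finite := Set.finite_lt_nat m
  exact (h1.prod h2).subset fun p hp => ⟨hp.1, hp.2⟩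

lemma card_words (m : ℕ) : ∃ s : Finset (List Bool), (∀ w, w ∈ s ↔ w.length < m) ∧
    s.card + 1 ≤ 2 ^ m := by
  induction m with
  | zero => exact ⟨∅, by simp, by simp⟩
  | succ m ih =>
    obtain ⟨s, hs, hc⟩ := ih
    refine ⟨insert [] (s.image (fun w => true :: w) ∪ s.image (fun w => false :: w)), ?_, ?_⟩
    · intro w
      cases w with
      | nil => simp
      | cons b w =>
        cases b <;> simp [hs]
    · have h0 := Finset.card_insert_le ([] : List Bool)
        (s.image (fun w => true :: w) ∪ s.image (fun w => false :: w))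
      have h1 : (s.image (fun w => true :: w)).card ≤ s.card := Finset.card_image_le
      have h2 : (s.image (fun w => false :: w)).card ≤ s.card := Finset.card_image_le
      have h3 := Finset.card_union_le (s.image (fun w => true :: w)) (s.image (fun w => false :: w))
      rw [pow_succ]
      omega

/-- a finset version of `supp` -/
lemma exists_supp (m : ℕ) : ∃ s : Finset Ix, (∀ p, p ∈ s ↔ p ∈ supp m) ∧ s.card ≤ 4 ^ m := by
  obtain ⟨t, ht, hc⟩ := card_words m
  refine ⟨t ×ˢ Finset.range m, fun p => ?_, ?_⟩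
  · rw [Finset.mem_product, ht, Finset.mem_range]; rfl
  · rw [Finset.card_product, Finset.card_range]
    have h1 : m ≤ 2 ^ m := Nat.lt_two_pow_self.le
    calc t.card * m ≤ 2 ^ m * 2 ^ m := Nat.mul_le_mul (by omega) h1
      _ = 4 ^ m := by rw [← mul_pow]; norm_num

open Classical in
/-- indicator of the finite set `supp m` -/
def suppF (m : ℕ) (p : Ix) : ℂ := if p ∈ supp m then 1 else 0

lemma suppF_le (m : ℕ) (p : Ix) : ‖suppF m p‖ ≤ 1 := by
  unfold suppF; split_ifs <;> simp

/-- the finite rank projection -/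
def QQ (m : ℕ) : HH →L[ℂ] HH := mulOp (suppF m) (suppF_le m)

/-- a multiplication operator by a finitely supported function -/
lemma mulOp_finite (φ : Ix → ℂ) (hφ : ∀ a, ‖φ a‖ ≤ 1) (s : Finset Ix) (hs : ∀ p, p ∉ s → φ p = 0)
    (ξ : HH) : mulOp φ hφ ξ = ∑ p ∈ s,
      ⟪(lp.single 2 p (1 : ℂ) : HH), ξ⟫_ℂ • ((lp.single 2 p (φ p) : HH)) := by
  ext a
  have h1 : ∀ p, ⟪(lp.single 2 p (1 : ℂ) : HH), ξ⟫_ℂ = ξ p := by
    intro p
    rw [lp.inner_single_left]
    simp
  simp only [h1]
  rw [lp.coeFn_sum, Finset.sum_apply]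
  change φ a * ξ a = ∑ c ∈ s, ξ c * (lp.single 2 c (φ c) : HH) a
  by_cases ha : a ∈ s
  · rw [Finset.sum_eq_single a]
    · rw [lp.single_apply_self]; ring
    · intro b _ hb
      rw [lp.single_apply_ne _ _ _ hb.symm, mul_zero]
    · intro h; exact absurd ha h
  · rw [hs a ha, zero_mul]
    symm
    refine Finset.sum_eq_zero fun b hb => ?_
    have : a ≠ b := by rintro rfl; exact ha hb
    rw [lp.single_apply_ne _ _ _ this, mul_zero]

lemma mulOp_finRank (φ : Ix → ℂ) (hφ : ∀ a, ‖φ a‖ ≤ 1) (s : Finset Ix)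
    (hs : ∀ p, p ∉ s → φ p = 0) : FinRank (mulOp φ hφ) :=
  finRank_of_sum s _ _ _ (mulOp_finite φ hφ s hs)

lemma AA_finRank (m : ℕ) : FinRank (AA m) := by
  obtain ⟨s, hs, _⟩ := exists_supp (m + 1)
  refine mulOp_finRank _ _ s fun p hp => ?_
  rw [hs] at hp
  have : wt m p = 0 := by
    unfold wt
    split_ifs with h
    · refine max_eq_left ?_
      have h1 : ¬ p.1.length < m + 1 := fun h2 => hp ⟨h2, h⟩
      have h2 : ((m : ℝ) + 1) ≤ p.1.length := by
        push Not at h1
        exact_mod_cast h1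
      have : (1 : ℝ) ≤ p.1.length / (m + 1) := by
        rw [le_div_iff₀ (by positivity)]; linarith
      linarith
    · rfl
  rw [this]; simp

lemma kf_QQ_le (m k : ℕ) : kf k (QQ m) ≤ 4 ^ m := by
  obtain ⟨s, hs, hc⟩ := exists_supp m
  have h0 : ∀ p, p ∉ s → suppF m p = 0 := by
    intro p hp
    rw [hs] at hp
    unfold suppF
    rw [if_neg hp]
  refine (kf_le_of_sum s _ _ _ (mulOp_finite _ (suppF_le m) s h0) k).trans ?_
  have h1 : ∀ p ∈ s, ‖(lp.single 2 p (1 : ℂ) : HH)‖ * ‖(lp.single 2 p (suppF m p) : HH)‖ ≤ 1 := by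
    intro p _
    rw [lp.norm_single (by norm_num), lp.norm_single (by norm_num)]
    have := suppF_le m p
    simpa using this
  refine (Finset.sum_le_sum h1).trans ?_
  simp only [Finset.sum_const, nsmul_eq_mul, mul_one]
  exact_mod_cast hc

lemma fin_QQ (m : ℕ) : Fin' (QQ m) := fin_of_bound (kf_QQ_le m)

lemma mnrm_QQ (m : ℕ) : mnrm (QQ m) ≤ m + 1 := by
  have h1 : ∀ n, term (QQ m) n ≤ 1 := by
    intro n
    unfold term
    have h2 := kf_le_mul (2 ^ n) (QQ m)
    have h3 := mulOp_norm_le _ (suppF_le m)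
    calc (2 : ℝ)⁻¹ ^ n * kf (2 ^ n) (QQ m) ≤ (2 : ℝ)⁻¹ ^ n * (((2 ^ n : ℕ) : ℝ) * ‖QQ m‖) := by
          gcongr
      _ = ‖QQ m‖ := by
          push_cast
          rw [← mul_assoc, ← mul_pow]
          norm_num
      _ ≤ 1 := h3
  have h2 : ∀ n, term (QQ m) (n + 2 * m) ≤ (2 : ℝ)⁻¹ ^ n := by
    intro n
    unfold term
    have h3 := kf_QQ_le m (2 ^ (n + 2 * m))
    calc (2 : ℝ)⁻¹ ^ (n + 2 * m) * kf (2 ^ (n + 2 * m)) (QQ m)
        ≤ (2 : ℝ)⁻¹ ^ (n + 2 * m) * 4 ^ m := by gcongr
      _ = (2 : ℝ)⁻¹ ^ n := by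
          rw [pow_add, pow_mul, mul_assoc, ← mul_pow]
          norm_num
  have h3 := (fin_QQ m).sum_add_tsum_nat_add (2 * m)
  unfold mnrm
  rw [← h3]
  have h4 : ∑ i ∈ Finset.range (2 * m), term (QQ m) i ≤ 2 * m := by
    refine (Finset.sum_le_sum fun i _ => h1 i).trans ?_
    simp
  have h5 : ∑' i, term (QQ m) (i + 2 * m) ≤ 2 := by
    rw [← hasSum_geo.tsum_eq]
    exact Summable.tsum_le_tsum h2 ((summable_nat_add_iff (2 * m)).mpr (fin_QQ m)) hasSum_geo.summable
  linarith

/-- the commutator of the approximate unit with an isometry -/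
lemma comm_AA (m : ℕ) (i : Bool) : AA m * SS i - SS i * AA m
    = (-(((m : ℂ) + 1)⁻¹)) • (SS i * QQ (m + 1)) := by
  have hc : ∀ p, ‖((wt m (gS i p) : ℝ) : ℂ)‖ ≤ 1 := fun p => wt_norm m _
  have h1 : AA m * SS i = SS i * mulOp (fun p => ((wt m (gS i p) : ℝ) : ℂ)) hc :=
    mulOp_push _ _ _ _ _ _ fun a => rfl
  rw [h1, ← mul_sub, ← mul_smul_comm]
  congr 1
  ext ξ p
  change ((wt m (gS i p) : ℝ) : ℂ) * ξ p - (wt m p : ℂ) * ξ p
    = (-(((m : ℂ) + 1)⁻¹)) * (suppF (m + 1) p * ξ p)
  rw [← sub_mul, ← mul_assoc]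
  congr 1
  have hm : ((m : ℝ) + 1) ≠ 0 := by positivity
  unfold wt suppF gS
  by_cases h2 : p.2 < m + 1
  · simp only [h2, if_true]
    by_cases h3 : p.1.length < m + 1
    · rw [if_pos (show p ∈ supp (m + 1) from ⟨h3, h2⟩)]
      have h4 : ((p.1.length : ℝ) + 1) ≤ m + 1 := by exact_mod_cast h3
      rw [max_eq_right, max_eq_right]
      · simp only [List.length_cons]
        push_cast
        have hm' : ((m : ℂ) + 1) ≠ 0 := by exact_mod_cast hm
        field_simp
        ring
      · rw [sub_nonneg, div_le_one (by positivity)]; linarith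
      · simp only [List.length_cons]
        push_cast
        rw [sub_nonneg, div_le_one (by positivity)]; linarith
    · rw [if_neg (show p ∉ supp (m + 1) from fun h => h3 h.1)]
      have h4 : ((m : ℝ) + 1) ≤ p.1.length := by
        push Not at h3
        exact_mod_cast h3
      rw [max_eq_left, max_eq_left]
      · simp
      · have : (1 : ℝ) ≤ p.1.length / (m + 1) := by
          rw [le_div_iff₀ (by positivity)]; linarith
        linarith
      · simp only [List.length_cons]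
        push_cast
        have : (1 : ℝ) ≤ (p.1.length + 1) / (m + 1) := by
          rw [le_div_iff₀ (by positivity)]; linarith
        linarith
  · simp only [h2, if_false]
    rw [if_neg (show p ∉ supp (m + 1) from fun h => h2 h.2)]
    simp

lemma fin_comm_AA (m : ℕ) (i : Bool) : Fin' (AA m * SS i - SS i * AA m) := by
  rw [comm_AA]
  refine Fin'.smul ?_ _
  have := (fin_QQ (m + 1)).mul (SS i) 1
  simpa using this

lemma mnrm_comm_AA (m : ℕ) (i : Bool) : mnrm (AA m * SS i - SS i * AA m) ≤ 2 := by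
  rw [comm_AA, mnrm_smul]
  have h1 : mnrm (SS i * QQ (m + 1)) ≤ (m + 1 : ℕ) + 1 := by
    have h2 := mnrm_mul (fin_QQ (m + 1)) (SS i) 1
    rw [mul_one] at h2
    refine h2.trans ?_
    have h3 := orthIso_SS.norm_le i
    have h4 : ‖(1 : HH →L[ℂ] HH)‖ ≤ 1 := ContinuousLinearMap.norm_id_le
    have h5 := mnrm_QQ (m + 1)
    calc ‖SS i‖ * mnrm (QQ (m + 1)) * ‖(1 : HH →L[ℂ] HH)‖
        ≤ 1 * ((m + 1 : ℕ) + 1) * 1 := by
          have := mnrm_nonneg (QQ (m + 1))
          gcongr
      _ = _ := by ring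
  have h2 : ‖-(((m : ℂ) + 1)⁻¹)‖ = ((m : ℝ) + 1)⁻¹ := by
    rw [norm_neg, norm_inv]
    congr 1
    have : ((m : ℂ) + 1) = ((m + 1 : ℝ) : ℂ) := by push_cast; rfl
    rw [this, Complex.norm_real, Real.norm_of_nonneg (by positivity)]
  rw [h2]
  calc ((m : ℝ) + 1)⁻¹ * mnrm (SS i * QQ (m + 1)) ≤ ((m : ℝ) + 1)⁻¹ * ((m + 1 : ℕ) + 1) := by
        gcongr
    _ ≤ 2 := by
        push_cast
        rw [inv_mul_le_iff₀ (by positivity)]
        have : (0 : ℝ) ≤ m := by positivity
        linarith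

end Pool.Agent.H516R3.Sat
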